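import Pool.Agent.Lib.MP_df705a_gt.Circ.DataB
import Pool.Agent.Lib.MP_df705a_gt.Mg.G013

/-!
# TASK G3b: the dilation is smooth
-/

open scoped Manifold ContDiff Topology
open Set Bundle Module Filter

noncomputable section

namespace Pool.Agent.Lib.MP_df705a_gt.Circ

open Pool.Agent.Lib.MP_df705a_gt.Twist Pool.Agent.Lib.MP_df705a_gt.Perm

variable {E₁ : Type*} [NormedAddCommGroup E₁] [NormedSpace ℝ E₁] [FiniteDimensional ℝ E₁]
  {B : Type*} [TopologicalSpace B] [ChartedSpace E₁ B] [IsManifold 𝓘(ℝ, E₁) ∞ B]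
  {E : Type*} [NormedAddCommGroup E] [NormedSpace ℝ E] [FiniteDimensional ℝ E]
  {M : Type*} [TopologicalSpace M] [ChartedSpace E M] [IsManifold 𝓘(ℝ, E) ∞ M]

namespace G3b

theorem mB_basis (A : Matrix (Fin (finrank ℝ E₁)) (Fin (finrank ℝ E₁)) ℝ) (i j) :
    Sub.mB A (finBasis ℝ E₁ i) (finBasis ℝ E₁ j) = A i j := by
  classical
  unfold Sub.mB
  rw [Finset.sum_eq_single i, Finset.sum_eq_single j]
  · simp
  · intro b _ hb
    simp [hb.symm]
  · intro h
    exact absurd (Finset.mem_univ _) h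
  · intro b _ hb
    refine Finset.sum_eq_zero fun l _ => ?_
    simp [hb.symm]
  · intro h
    exact absurd (Finset.mem_univ _) h

theorem sum_swap4 {κ : Type} [Fintype κ] {n : ℕ} (H : Matrix (Fin n) (Fin n) ℝ)
    (c : κ → κ → ℝ) (P : κ → Fin n → ℝ) :
    ∑ k, ∑ l, c k l * ∑ i, ∑ j, H i j * (P k i * P l j) =
      ∑ i, ∑ j, H i j * ∑ k, ∑ l, c k l * (P k i * P l j) := by
  simp only [Finset.mul_sum]
  have h1 : ∀ k : κ, ∑ l, ∑ i, ∑ j, c k l * (H i j * (P k i * P l j)) =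
      ∑ i, ∑ j, ∑ l, H i j * (c k l * (P k i * P l j)) := by
    intro k
    rw [Finset.sum_comm]
    refine Finset.sum_congr rfl fun i _ => ?_
    rw [Finset.sum_comm]
    refine Finset.sum_congr rfl fun j _ => Finset.sum_congr rfl fun l _ => ?_
    ring
  rw [Finset.sum_congr rfl fun k _ => h1 k, Finset.sum_comm]
  refine Finset.sum_congr rfl fun i _ => ?_
  rw [Finset.sum_comm]

theorem trace_id
    (gB : ContMDiffRiemannianMetric 𝓘(ℝ, E₁) ∞ E₁ (fun x : B => TangentSpace 𝓘(ℝ, E₁) x))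
    {κ : Type} [Fintype κ] {f : κ → B → ℝ} {c : κ → κ → B → ℝ} (hf : ∀ k, Sm E₁ (f k))
    (hdata : ∀ (x : B) (v w : E₁), ∑ k, ∑ l, c k l x * (dfun f k x v * dfun f l x w) =
        gB.inner x v w) (x : B) :
    ∑ k, ∑ l, c k l x * Grd gB (f k) (f l) x = (finrank ℝ E₁ : ℝ) := by
  classical
  set y := extChartAt 𝓘(ℝ, E₁) x x with hy
  have hyt : y ∈ (extChartAt 𝓘(ℝ, E₁) x).target := mem_extChartAt_target x
  set H := coeff gB x y with hH
  have hrd : ∀ k l, rd E₁ x (c k l) y = c k l x := by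
    intro k l
    show c k l ((extChartAt 𝓘(ℝ, E₁) x).symm y) = c k l x
    rw [hy, extChartAt_to_inv]
  have hent : ∀ i j, ∑ k, ∑ l, c k l x *
      (Curv.pd i (rd E₁ x (f k)) y * Curv.pd j (rd E₁ x (f l)) y) = H i j := by
    intro i j
    have h1 := data_chart gB hf hdata x hyt (finBasis ℝ E₁ i) (finBasis ℝ E₁ j)
    rw [mB_basis] at h1
    rw [hH, h1]
    refine Finset.sum_congr rfl fun k _ => Finset.sum_congr rfl fun l _ => ?_
    rw [hrd]
    rfl
  have hdet : IsUnit H.det := isUnit_iff_ne_zero.2 (g3_coeff_det gB x hyt)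
  have hsymm : ∀ i j, H i j = H j i := fun i j =>
    chartMetric_symm 𝓘(ℝ, E₁) (finBasis ℝ E₁) gB x y i j
  have h2 : ∑ k, ∑ l, c k l x * Grd gB (f k) (f l) x =
      ∑ k, ∑ l, c k l x * ∑ i, ∑ j, H⁻¹ i j *
        (Curv.pd i (rd E₁ x (f k)) y * Curv.pd j (rd E₁ x (f l)) y) := rfl
  rw [h2, sum_swap4 H⁻¹ (fun k l => c k l x) (fun k i => Curv.pd i (rd E₁ x (f k)) y)]
  have h3 : ∀ i, ∑ j, H⁻¹ i j * ∑ k, ∑ l, c k l x *
      (Curv.pd i (rd E₁ x (f k)) y * Curv.pd j (rd E₁ x (f l)) y) = 1 := by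
    intro i
    have h4 : ∀ j, H⁻¹ i j * ∑ k, ∑ l, c k l x *
        (Curv.pd i (rd E₁ x (f k)) y * Curv.pd j (rd E₁ x (f l)) y) = H⁻¹ i j * H j i := by
      intro j
      rw [hent, hsymm]
    rw [Finset.sum_congr rfl fun j _ => h4 j, ← Matrix.mul_apply, Matrix.nonsing_inv_mul _ hdet,
      Matrix.one_apply_eq]
  rw [Finset.sum_congr rfl fun i _ => h3 i]
  simp

end G3b

/-- The dilation is smooth: `e^{-2α} = (1/m) ∑ c_kl ⟨d(f_k ∘ pr), d(f_l ∘ pr)⟩`. -/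
theorem exists_alpha [CompactSpace B] [T2Space B] (hd₁ : 0 < finrank ℝ E₁)
    (g : ContMDiffRiemannianMetric 𝓘(ℝ, E) ∞ E (fun x : M => TangentSpace 𝓘(ℝ, E) x))
    (gB : ContMDiffRiemannianMetric 𝓘(ℝ, E₁) ∞ E₁ (fun x : B => TangentSpace 𝓘(ℝ, E₁) x))
    {pr : M → B} (hpr : Submersion E E₁ pr) (hH : HorConf g gB pr) :
    ∃ α : M → ℝ, Sm E α ∧ ∀ p, HorAt g gB pr p (Real.exp (-(2 * α p))) := by
  obtain ⟨κ, _, f, c, hf, hc, -, -, hdata, -⟩ := exists_data gB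
  have hm : (0 : ℝ) < finrank ℝ E₁ := by exact_mod_cast hd₁
  set lam : M → ℝ := fun p => (finrank ℝ E₁ : ℝ)⁻¹ * ∑ k, ∑ l, c k l (pr p) *
    Grd g (fun p => f k (pr p)) (fun p => f l (pr p)) p with hlam
  have hlams : Sm E lam := by
    have h1 : ContMDiff 𝓘(ℝ, E) 𝓘(ℝ, ℝ) ∞ (fun p => ∑ k, ∑ l, c k l (pr p) *
        Grd g (fun p => f k (pr p)) (fun p => f l (pr p)) p) := by
      refine contMDiff_finsetSum fun k _ => contMDiff_finsetSum fun l _ => ?_
      exact ContMDiff.mul (sm_comp_pr hpr.1 (hc k l))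
        (sm_grd g (sm_comp_pr hpr.1 (hf k)) (sm_comp_pr hpr.1 (hf l)))
    exact ContMDiff.mul contMDiff_const h1
  have hval : ∀ p (r : ℝ), HorAt g gB pr p r → lam p = r := by
    intro p r hr
    have h1 : ∀ k l, Grd g (fun p => f k (pr p)) (fun p => f l (pr p)) p =
        r * Grd gB (f k) (f l) (pr p) := fun k l => grd_sub g gB hpr hr (hf k) (hf l)
    have h2 : ∑ k, ∑ l, c k l (pr p) *
        Grd g (fun p => f k (pr p)) (fun p => f l (pr p)) p =
        r * ∑ k, ∑ l, c k l (pr p) * Grd gB (f k) (f l) (pr p) := by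
      rw [Finset.mul_sum]
      refine Finset.sum_congr rfl fun k _ => ?_
      rw [Finset.mul_sum]
      refine Finset.sum_congr rfl fun l _ => ?_
      rw [h1]
      ring
    show (finrank ℝ E₁ : ℝ)⁻¹ * _ = r
    rw [h2, G3b.trace_id gB hf hdata]
    field_simp
  have hall : ∀ p, 0 < lam p ∧ HorAt g gB pr p (lam p) := by
    intro p
    obtain ⟨r, hr, hh⟩ := hH p
    have h1 : HorAt g gB pr p r := hh
    have h2 := hval p r h1
    rw [h2]
    exact ⟨hr, h1⟩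
  refine ⟨fun p => (-(1 / 2 : ℝ)) * Real.log (lam p), ?_, ?_⟩
  · have h1 : ContMDiff 𝓘(ℝ, E) 𝓘(ℝ, ℝ) ∞ (fun p => Real.log (lam p)) := by
      intro p
      exact ContMDiffAt.comp p (Real.contDiffAt_log.2 (hall p).1.ne').contMDiffAt (hlams p)
    exact ContMDiff.mul contMDiff_const h1
  · intro p
    have h1 : -(2 * ((-(1 / 2 : ℝ)) * Real.log (lam p))) = Real.log (lam p) := by ring
    show HorAt g gB pr p (Real.exp (-(2 * ((-(1 / 2 : ℝ)) * Real.log (lam p)))))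
    rw [h1, Real.exp_log (hall p).1]
    exact (hall p).2

end Pool.Agent.Lib.MP_df705a_gt.Circ
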