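import Pool.Agent.Lib.MP_df705a_gt.Circ.SubChart

/-!
# TASK N4a: change of the adapted parametrization
-/

open scoped Manifold ContDiff Topology
open Set Bundle Module Filter

noncomputable section

namespace Pool.Agent.Lib.MP_df705a_gt.Circ

open Pool.Agent.Lib.MP_df705a_gt.Twist Pool.Agent.Lib.MP_df705a_gt.Perm

variable {E₁ : Type*} [NormedAddCommGroup E₁] [NormedSpace ℝ E₁] [FiniteDimensional ℝ E₁]
  {B : Type*} [TopologicalSpace B] [ChartedSpace E₁ B] [IsManifold 𝓘(ℝ, E₁) ∞ B]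
  {E : Type*} [NormedAddCommGroup E] [NormedSpace ℝ E] [FiniteDimensional ℝ E]
  {M : Type*} [TopologicalSpace M] [ChartedSpace E M] [IsManifold 𝓘(ℝ, E) ∞ M]

namespace N4a

theorem fderiv_fst {τ : E₁ × ℝ → E₁ × ℝ} (hτ : ContDiff ℝ ∞ τ) (h1 : ∀ y, (τ y).1 = y.1)
    (y v : E₁ × ℝ) : (fderiv ℝ τ y v).1 = v.1 := by
  have hd : DifferentiableAt ℝ τ y := hτ.contDiffAt.differentiableAt (by simp)
  have h2 : HasFDerivAt (fun p => (τ p).1)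
      ((ContinuousLinearMap.fst ℝ E₁ ℝ).comp (fderiv ℝ τ y)) y :=
    (ContinuousLinearMap.fst ℝ E₁ ℝ).hasFDerivAt.comp y hd.hasFDerivAt
  have h3 : HasFDerivAt (fun p : E₁ × ℝ => (τ p).1) (ContinuousLinearMap.fst ℝ E₁ ℝ) y := by
    have h4 : (fun p : E₁ × ℝ => (τ p).1) = fun p => p.1 := funext h1
    rw [h4]
    exact hasFDerivAt_fst
  have h5 := h2.unique h3
  exact DFunLike.congr_fun h5 v

theorem fderiv_bij {τ : E₁ × ℝ → E₁ × ℝ} (hτ : ContDiff ℝ ∞ τ) (h1 : ∀ y, (τ y).1 = y.1)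
    {y : E₁ × ℝ} (h2 : (fderiv ℝ τ y (0, 1)).2 ≠ 0) :
    Function.Bijective (fderiv ℝ τ y) := by
  have hinj : Function.Injective (fderiv ℝ τ y) := by
    rw [injective_iff_map_eq_zero]
    rintro ⟨u, s⟩ huv
    have hu : u = 0 := by
      have := fderiv_fst hτ h1 y (u, s)
      rw [huv] at this
      exact this.symm
    subst hu
    have hs : ((0 : E₁), s) = s • ((0 : E₁), (1 : ℝ)) := by simp
    rw [hs, map_smul] at huv
    have h3 : s * (fderiv ℝ τ y (0, 1)).2 = 0 := by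
      have := congrArg Prod.snd huv
      simpa using this
    have h4 : s = 0 := (mul_eq_zero.1 h3).resolve_right h2
    rw [h4]
    rfl
  exact ⟨hinj, LinearMap.surjective_of_injective (f := (fderiv ℝ τ y).toLinearMap) hinj⟩

theorem eventually_ne {τ : E₁ × ℝ → E₁ × ℝ} (hτ : ContDiff ℝ ∞ τ) {q : E₁ × ℝ}
    (h2 : (fderiv ℝ τ q (0, 1)).2 ≠ 0) : ∀ᶠ y in 𝓝 q, (fderiv ℝ τ y (0, 1)).2 ≠ 0 := by
  have hc : Continuous fun y => (fderiv ℝ τ y (0, 1)).2 :=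
    continuous_snd.comp ((hτ.continuous_fderiv (by simp)).clm_apply continuous_const)
  exact hc.continuousAt.eventually_ne h2

theorem tendsto {τ : E₁ × ℝ → E₁ × ℝ} (hτ : ContDiff ℝ ∞ τ) {q : E₁ × ℝ} (hq : τ q = q) :
    Tendsto τ (𝓝 q) (𝓝 q) := by
  have := hτ.continuous.tendsto q
  rwa [hq] at this

end N4a

theorem AC.comp {pr : M → B} {σ : E₁ × ℝ → M} {q : E₁ × ℝ} {z : B} (hA : AC E pr σ q z)
    {τ : E₁ × ℝ → E₁ × ℝ} (hτ : ContDiff ℝ ∞ τ) (hq : τ q = q) (h1 : ∀ y, (τ y).1 = y.1)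
    (h2 : (fderiv ℝ τ q (0, 1)).2 ≠ 0) : AC E pr (σ ∘ τ) q z := by
  have ht := N4a.tendsto hτ hq
  refine ⟨?_, ht.eventually hA.src, ?_⟩
  · filter_upwards [ht.eventually hA.para, N4a.eventually_ne hτ h2] with y hy hy2
    have hτy : ContMDiffAt 𝓘(ℝ, E₁ × ℝ) 𝓘(ℝ, E₁ × ℝ) ∞ τ y := hτ.contMDiff y
    refine ⟨hy.smooth.comp y hτy, ?_⟩
    have h3 : mfderiv 𝓘(ℝ, E₁ × ℝ) 𝓘(ℝ, E) (σ ∘ τ) y =
        (mfderiv 𝓘(ℝ, E₁ × ℝ) 𝓘(ℝ, E) σ (τ y)).comp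
          (mfderiv 𝓘(ℝ, E₁ × ℝ) 𝓘(ℝ, E₁ × ℝ) τ y) :=
      mfderiv_comp y (hy.smooth.mdifferentiableAt (by simp)) (hτy.mdifferentiableAt (by simp))
    rw [h3]
    rw [mfderiv_eq_fderiv]
    exact hy.bij.comp (N4a.fderiv_bij hτ h1 hy2)
  · filter_upwards [ht.eventually hA.fst] with y hy
    rw [Function.comp_apply, hy, h1]

end Pool.Agent.Lib.MP_df705a_gt.Circ
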