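import Pool.Agent.Lib.MP_df705a_gt.Mg.G058

/-!
# TASK N3: the normal form of a connection at a point
-/

open scoped Manifold ContDiff Topology
open Set Bundle Module Filter

noncomputable section

namespace Pool.Agent.Lib.MP_df705a_gt.Circ

open Pool.Agent.Lib.MP_df705a_gt.Twist Pool.Agent.Lib.MP_df705a_gt.Perm

variable {E₁ : Type*} [NormedAddCommGroup E₁] [NormedSpace ℝ E₁] [FiniteDimensional ℝ E₁]

/-- The connection `Γ` in the new coordinates given by `τ` (new to old). -/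
def newG (Γ : E₁ × ℝ → E₁ →L[ℝ] ℝ) (τ : E₁ × ℝ → E₁ × ℝ) (y : E₁ × ℝ) : E₁ →L[ℝ] ℝ :=
  ((fderiv ℝ τ y (0, 1)).2)⁻¹ • (Γ (τ y) -
    ((ContinuousLinearMap.snd ℝ E₁ ℝ).comp (fderiv ℝ τ y)).comp (ContinuousLinearMap.inl ℝ E₁ ℝ))

namespace Normal

/-- The second component of the polynomial change of coordinates. -/
def tau2 (q : E₁ × ℝ) (G A : E₁ →L[ℝ] ℝ) (Q : E₁ →L[ℝ] E₁ →L[ℝ] ℝ) (y : E₁ × ℝ) : ℝ :=
  y.2 + G (y.1 - q.1) + (y.2 - q.2) * A (y.1 - q.1) + (1 / 2) * Q (y.1 - q.1) (y.1 - q.1)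

/-- The derivative of `tau2`. -/
def dtau2 (q : E₁ × ℝ) (G A : E₁ →L[ℝ] ℝ) (Q : E₁ →L[ℝ] E₁ →L[ℝ] ℝ) (y : E₁ × ℝ) :
    E₁ × ℝ →L[ℝ] ℝ :=
  ContinuousLinearMap.snd ℝ E₁ ℝ + G.comp (ContinuousLinearMap.fst ℝ E₁ ℝ) +
    ((y.2 - q.2) • A.comp (ContinuousLinearMap.fst ℝ E₁ ℝ) +
      A (y.1 - q.1) • ContinuousLinearMap.snd ℝ E₁ ℝ) +
    (1 / 2 : ℝ) • ((Q (y.1 - q.1)).comp (ContinuousLinearMap.fst ℝ E₁ ℝ) +
      (Q.flip (y.1 - q.1)).comp (ContinuousLinearMap.fst ℝ E₁ ℝ))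

theorem hasFDerivAt_tau2 (q : E₁ × ℝ) (G A : E₁ →L[ℝ] ℝ) (Q : E₁ →L[ℝ] E₁ →L[ℝ] ℝ)
    (y : E₁ × ℝ) : HasFDerivAt (tau2 q G A Q) (dtau2 q G A Q y) y := by
  have h1 : HasFDerivAt (fun y : E₁ × ℝ => y.1 - q.1) (ContinuousLinearMap.fst ℝ E₁ ℝ) y :=
    (ContinuousLinearMap.fst ℝ E₁ ℝ).hasFDerivAt.sub_const q.1
  have h2 : HasFDerivAt (fun y : E₁ × ℝ => y.2) (ContinuousLinearMap.snd ℝ E₁ ℝ) y :=
    (ContinuousLinearMap.snd ℝ E₁ ℝ).hasFDerivAt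
  have h2' : HasFDerivAt (fun y : E₁ × ℝ => y.2 - q.2) (ContinuousLinearMap.snd ℝ E₁ ℝ) y :=
    h2.sub_const q.2
  have h3 : HasFDerivAt (fun y : E₁ × ℝ => G (y.1 - q.1))
      (G.comp (ContinuousLinearMap.fst ℝ E₁ ℝ)) y := G.hasFDerivAt.comp y h1
  have h4 : HasFDerivAt (fun y : E₁ × ℝ => A (y.1 - q.1))
      (A.comp (ContinuousLinearMap.fst ℝ E₁ ℝ)) y := A.hasFDerivAt.comp y h1
  have h5 : HasFDerivAt (fun y : E₁ × ℝ => Q (y.1 - q.1))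
      (Q.comp (ContinuousLinearMap.fst ℝ E₁ ℝ)) y := Q.hasFDerivAt.comp y h1
  have h6 := h5.clm_apply h1
  have h7 := ((h2.add h3).add (h2'.mul h4)).add (h6.const_mul (1 / 2 : ℝ))
  refine h7.congr_fderiv ?_
  ext w
  · simp [dtau2]
  · simp [dtau2]

theorem contDiff_tau2 (q : E₁ × ℝ) (G A : E₁ →L[ℝ] ℝ) (Q : E₁ →L[ℝ] E₁ →L[ℝ] ℝ) :
    ContDiff ℝ ∞ (tau2 q G A Q) := by
  have h1 : ContDiff ℝ ∞ (fun y : E₁ × ℝ => y.1 - q.1) := contDiff_fst.sub contDiff_const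
  have h2 : ContDiff ℝ ∞ (fun y : E₁ × ℝ => y.2) := contDiff_snd
  have h5 : ContDiff ℝ ∞ (fun y : E₁ × ℝ => Q (y.1 - q.1)) := Q.contDiff.comp h1
  exact ((h2.add (G.contDiff.comp h1)).add ((h2.sub contDiff_const).mul
    (A.contDiff.comp h1))).add (contDiff_const.mul (h5.clm_apply h1))

/-- The covector subtracted in `newG`. -/
def sub2 (q : E₁ × ℝ) (G A : E₁ →L[ℝ] ℝ) (Q : E₁ →L[ℝ] E₁ →L[ℝ] ℝ) (y : E₁ × ℝ) :
    E₁ →L[ℝ] ℝ :=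
  G + (y.2 - q.2) • A + (1 / 2 : ℝ) • (Q (y.1 - q.1) + Q.flip (y.1 - q.1))

theorem hasFDerivAt_sub2 (q : E₁ × ℝ) (G A : E₁ →L[ℝ] ℝ) (Q : E₁ →L[ℝ] E₁ →L[ℝ] ℝ)
    (y : E₁ × ℝ) : HasFDerivAt (sub2 q G A Q)
      ((ContinuousLinearMap.snd ℝ E₁ ℝ).smulRight A + (1 / 2 : ℝ) •
        (Q.comp (ContinuousLinearMap.fst ℝ E₁ ℝ) +
          Q.flip.comp (ContinuousLinearMap.fst ℝ E₁ ℝ))) y := by
  have h1 : HasFDerivAt (fun y : E₁ × ℝ => y.1 - q.1) (ContinuousLinearMap.fst ℝ E₁ ℝ) y :=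
    (ContinuousLinearMap.fst ℝ E₁ ℝ).hasFDerivAt.sub_const q.1
  have h2 : HasFDerivAt (fun y : E₁ × ℝ => y.2 - q.2) (ContinuousLinearMap.snd ℝ E₁ ℝ) y :=
    (ContinuousLinearMap.snd ℝ E₁ ℝ).hasFDerivAt.sub_const q.2
  have h3 : HasFDerivAt (fun y : E₁ × ℝ => (y.2 - q.2) • A)
      ((ContinuousLinearMap.snd ℝ E₁ ℝ).smulRight A) y := h2.smul_const A
  have h5 : HasFDerivAt (fun y : E₁ × ℝ => Q (y.1 - q.1))
      (Q.comp (ContinuousLinearMap.fst ℝ E₁ ℝ)) y := Q.hasFDerivAt.comp y h1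
  have h6 : HasFDerivAt (fun y : E₁ × ℝ => Q.flip (y.1 - q.1))
      (Q.flip.comp (ContinuousLinearMap.fst ℝ E₁ ℝ)) y := Q.flip.hasFDerivAt.comp y h1
  exact (h3.const_add G).add ((h5.add h6).const_smul (1 / 2 : ℝ))

end Normal

open Pool.Agent.Lib.MP_df705a_gt.Circ.Normal in
/-- Take `τ (x, y) = (x, y + Γ₀ ξ + (y - y₀) (∂_y Γ)₀ ξ + (1/2) DΓ₀(ξ, Γ₀ ξ) ξ)`, `ξ = x - x₀`. -/
theorem exists_normal {Γ : E₁ × ℝ → E₁ →L[ℝ] ℝ} {q : E₁ × ℝ} (hΓ : ContDiffAt ℝ ∞ Γ q) :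
    ∃ τ : E₁ × ℝ → E₁ × ℝ, ContDiff ℝ ∞ τ ∧ τ q = q ∧ (∀ y, (τ y).1 = y.1) ∧
      (fderiv ℝ τ q (0, 1)).2 ≠ 0 ∧ NF (newG Γ τ) q := by
  set G : E₁ →L[ℝ] ℝ := Γ q with hG
  set P : E₁ × ℝ →L[ℝ] E₁ →L[ℝ] ℝ := fderiv ℝ Γ q with hP
  set A : E₁ →L[ℝ] ℝ := P (0, 1) with hA
  set Q : E₁ →L[ℝ] E₁ →L[ℝ] ℝ := P.comp ((ContinuousLinearMap.id ℝ E₁).prod G) with hQ
  let τ : E₁ × ℝ → E₁ × ℝ := fun y => (y.1, tau2 q G A Q y)
  have hder : ∀ y, HasFDerivAt τ ((ContinuousLinearMap.fst ℝ E₁ ℝ).prod (dtau2 q G A Q y)) y :=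
    fun y => (ContinuousLinearMap.fst ℝ E₁ ℝ).hasFDerivAt.prodMk (hasFDerivAt_tau2 q G A Q y)
  have hτq : τ q = q := by
    apply Prod.ext
    · rfl
    · simp [τ, tau2]
  have hc : ∀ y, (fderiv ℝ τ y (0, 1)).2 = 1 + A (y.1 - q.1) := by
    intro y
    rw [(hder y).fderiv]
    simp [dtau2]
  have hS : ∀ y, ((ContinuousLinearMap.snd ℝ E₁ ℝ).comp (fderiv ℝ τ y)).comp
      (ContinuousLinearMap.inl ℝ E₁ ℝ) = sub2 q G A Q y := by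
    intro y
    rw [(hder y).fderiv]
    ext v
    simp [dtau2, sub2]
  have hnew : newG Γ τ = fun y => (1 + A (y.1 - q.1))⁻¹ • (Γ (τ y) - sub2 q G A Q y) := by
    funext y
    unfold newG
    rw [hc y, hS y]
  have hΓd : HasFDerivAt Γ P (τ q) := by
    rw [hτq]
    exact (hΓ.differentiableAt (by simp)).hasFDerivAt
  have hF := (hΓd.comp q (hder q)).sub (hasFDerivAt_sub2 q G A Q q)
  have hc1 : HasFDerivAt (fun y : E₁ × ℝ => 1 + A (y.1 - q.1))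
      (A.comp (ContinuousLinearMap.fst ℝ E₁ ℝ)) q :=
    (A.hasFDerivAt.comp q
      ((ContinuousLinearMap.fst ℝ E₁ ℝ).hasFDerivAt.sub_const q.1)).const_add 1
  have hc2 : DifferentiableAt ℝ (fun y : E₁ × ℝ => (1 + A (y.1 - q.1))⁻¹) q := by
    apply hc1.differentiableAt.inv
    simp
  have hN := hc2.hasFDerivAt.smul hF
  have hF0 : (Γ ∘ τ - sub2 q G A Q) q = 0 := by
    simp only [Pi.sub_apply, Function.comp_apply, hτq]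
    ext v
    simp [sub2, hG]
  have hval : ∀ w, fderiv ℝ (newG Γ τ) q w = P (w.1, dtau2 q G A Q q w) -
      (w.2 • A + (1 / 2 : ℝ) • (Q w.1 + Q.flip w.1)) := by
    intro w
    rw [hnew]
    have h1 : HasFDerivAt (fun y => (1 + A (y.1 - q.1))⁻¹ • (Γ (τ y) - sub2 q G A Q y)) _ q := hN
    have hF0' : (Γ ∘ τ - sub2 q G A Q) q = 0 := hF0
    have h2 : (1 + A (q.1 - q.1))⁻¹ = (1 : ℝ) := by rw [sub_self, map_zero, add_zero, inv_one]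
    rw [h1.fderiv, add_apply, ContinuousLinearMap.smulRight_apply, smul_apply]
    rw [hF0', smul_zero, add_zero, h2, one_smul]
    rfl
  refine ⟨τ, ?_, hτq, fun y => rfl, ?_, ?_⟩
  · exact contDiff_fst.prodMk (contDiff_tau2 q G A Q)
  · rw [hc q]
    simp
  · refine ⟨?_, ?_, ?_⟩
    · rw [hnew]
      have hF0' : (Γ (τ q) - sub2 q G A Q q) = 0 := hF0
      simp only [hF0', smul_zero]
    · rw [hval]
      ext v
      simp [dtau2, hA]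
    · intro u v
      rw [hval, hval]
      have h1 : ∀ u : E₁, dtau2 q G A Q q (u, 0) = G u := by
        intro u
        simp [dtau2]
      have h2 : ∀ u v : E₁, P (u, G u) v = Q u v := fun u v => rfl
      simp only [h1]
      simp only [sub_apply, add_apply, smul_apply, h2, ContinuousLinearMap.flip_apply, zero_smul,
        smul_eq_mul]
      simp
      ring

end Pool.Agent.Lib.MP_df705a_gt.Circ
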