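import Pool.Agent.Lib.MP_df705a_gt.Mg.G058

/-!
# TASK N1: a submersion is a projection in suitable coordinates
-/

open scoped Manifold ContDiff Topology
open Set Bundle Module Filter

noncomputable section

namespace Pool.Agent.Lib.MP_df705a_gt.Circ

open Pool.Agent.Lib.MP_df705a_gt.Twist Pool.Agent.Lib.MP_df705a_gt.Perm

variable {E₁ : Type*} [NormedAddCommGroup E₁] [NormedSpace ℝ E₁] [FiniteDimensional ℝ E₁]
  {B : Type*} [TopologicalSpace B] [ChartedSpace E₁ B] [IsManifold 𝓘(ℝ, E₁) ∞ B]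
  {E : Type*} [NormedAddCommGroup E] [NormedSpace ℝ E] [FiniteDimensional ℝ E]
  {M : Type*} [TopologicalSpace M] [ChartedSpace E M] [IsManifold 𝓘(ℝ, E) ∞ M]

/-- An adapted parametrization near `q`: in the chart of `B` at `z` the map `pr` is the
projection `(x, y) ↦ x`. -/
structure AC (E : Type*) [NormedAddCommGroup E] [NormedSpace ℝ E]
    {E₁ : Type*} [NormedAddCommGroup E₁] [NormedSpace ℝ E₁]
    {M : Type*} [TopologicalSpace M] [ChartedSpace E M]
    {B : Type*} [TopologicalSpace B] [ChartedSpace E₁ B]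
    (pr : M → B) (σ : E₁ × ℝ → M) (q : E₁ × ℝ) (z : B) : Prop where
  para : ∀ᶠ y in 𝓝 q, Para E σ y
  src : ∀ᶠ y in 𝓝 q, pr (σ y) ∈ (extChartAt 𝓘(ℝ, E₁) z).source
  fst : ∀ᶠ y in 𝓝 q, extChartAt 𝓘(ℝ, E₁) z (pr (σ y)) = y.1

namespace N1

omit [FiniteDimensional ℝ E₁] [FiniteDimensional ℝ E] in
theorem exists_compl [FiniteDimensional ℝ E₁] [FiniteDimensional ℝ E]
    (hd : finrank ℝ E = finrank ℝ E₁ + 1) (A : E →L[ℝ] E₁)
    (hA : Function.Surjective A) :
    ∃ l : E →L[ℝ] ℝ, Function.Bijective (A.prod l) := by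
  have h1 := LinearMap.finrank_range_add_finrank_ker (A : E →ₗ[ℝ] E₁)
  have h2 : finrank ℝ (A : E →ₗ[ℝ] E₁).range = finrank ℝ E₁ := by
    rw [LinearMap.range_eq_top.2 (by exact hA)]
    exact finrank_top ℝ E₁
  have h3 : finrank ℝ (A : E →ₗ[ℝ] E₁).ker = 1 := by omega
  obtain ⟨⟨v, hv⟩, hv0, hall⟩ := finrank_eq_one_iff'.1 h3
  have hvne : v ≠ 0 := fun h => hv0 (Subtype.ext h)
  obtain ⟨l, hl⟩ := SeparatingDual.exists_ne_zero (R := ℝ) hvne
  refine ⟨l, ?_⟩
  have hinj : Function.Injective (A.prod l) := by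
    rw [injective_iff_map_eq_zero]
    intro w hw
    have hw1 : A w = 0 := congrArg Prod.fst hw
    have hw2 : l w = 0 := congrArg Prod.snd hw
    obtain ⟨c, hc⟩ := hall ⟨w, by exact hw1⟩
    have hc' : c • v = w := congrArg Subtype.val hc
    rw [← hc', map_smul, smul_eq_mul] at hw2
    rcases mul_eq_zero.1 hw2 with h | h
    · rw [← hc', h, zero_smul]
    · exact absurd h hl
  have hfin : finrank ℝ E = finrank ℝ (E₁ × ℝ) := by
    rw [finrank_prod, hd, finrank_self]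
  exact ⟨hinj, (LinearMap.injective_iff_surjective_of_finrank_eq_finrank
    (f := ((A.prod l : E →L[ℝ] E₁ × ℝ) : E →ₗ[ℝ] E₁ × ℝ)) hfin).1 hinj⟩

end N1

theorem exists_AC (hd : finrank ℝ E = finrank ℝ E₁ + 1) {pr : M → B}
    (hpr : Submersion E E₁ pr) (p : M) :
    ∃ (σ : E₁ × ℝ → M) (q : E₁ × ℝ), σ q = p ∧ AC E pr σ q (pr p) := by
  have : CompleteSpace E := FiniteDimensional.complete ℝ E
  have : CompleteSpace E₁ := FiniteDimensional.complete ℝ E₁
  obtain ⟨hsm, hsurj⟩ := hpr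
  set c := extChartAt 𝓘(ℝ, E) p with hc
  set d := extChartAt 𝓘(ℝ, E₁) (pr p) with hd'
  set F : E → E₁ := fun x => d (pr (c.symm x)) with hF
  set x0 : E := c p with hx0
  have hcp : c.symm x0 = p := extChartAt_to_inv (I := 𝓘(ℝ, E)) p
  -- the good set
  set U : Set E := c.target ∩ c.symm ⁻¹' (pr ⁻¹' d.source) with hU
  have hUo : IsOpen U := by
    have h1 : ContinuousOn c.symm c.target := continuousOn_extChartAt_symm p
    have h2 : IsOpen (pr ⁻¹' d.source) :=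
      (isOpen_extChartAt_source (I := 𝓘(ℝ, E₁)) (pr p)).preimage hsm.continuous
    exact h1.isOpen_inter_preimage (isOpen_extChartAt_target p) h2
  have hx0U : x0 ∈ U := by
    refine ⟨mem_extChartAt_target p, ?_⟩
    show pr (c.symm x0) ∈ d.source
    rw [hcp]
    exact mem_extChartAt_source (pr p)
  have hcs : ∀ x ∈ U, ContMDiffAt 𝓘(ℝ, E) 𝓘(ℝ, E) ∞ c.symm x := fun x hx =>
    (contMDiffOn_extChartAt_symm p).contMDiffAt ((isOpen_extChartAt_target p).mem_nhds hx.1)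
  have hdsm : ∀ b ∈ d.source, ContMDiffAt 𝓘(ℝ, E₁) 𝓘(ℝ, E₁) ∞ d b := fun b hb =>
    contMDiffAt_extChartAt' (by rwa [hd', extChartAt_source] at hb)
  have hFM : ∀ x ∈ U, ContMDiffAt 𝓘(ℝ, E) 𝓘(ℝ, E₁) ∞ F x := fun x hx =>
    (hdsm _ hx.2).comp x ((hsm _).comp x (hcs x hx))
  have hFsm : ∀ x ∈ U, ContDiffAt ℝ ∞ F x := fun x hx =>
    contMDiffAt_iff_contDiffAt.1 (hFM x hx)
  -- the derivative of F at x0 is surjective
  have hAs : Function.Surjective (fderiv ℝ F x0) := by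
    have h1 : mfderiv 𝓘(ℝ, E) 𝓘(ℝ, E₁) pr p = fderiv ℝ F x0 := by
      have hmd : MDifferentiableAt 𝓘(ℝ, E) 𝓘(ℝ, E₁) pr p :=
        (hsm p).mdifferentiableAt (by simp)
      have h2 := hmd.mfderiv
      simp only [writtenInExtChartAt, ModelWithCorners.range_eq_univ, fderivWithin_univ] at h2
      exact h2
    rw [← h1]
    exact hsurj p
  obtain ⟨l, hl⟩ := N1.exists_compl hd _ hAs
  set Φ : E → E₁ × ℝ := fun x => (F x, l x) with hΦ
  have hΦsm : ∀ x ∈ U, ContDiffAt ℝ ∞ Φ x := fun x hx =>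
    (hFsm x hx).prodMk l.contDiff.contDiffAt
  let L : E ≃L[ℝ] E₁ × ℝ := ContinuousLinearEquiv.ofBijective ((fderiv ℝ F x0).prod l)
    (LinearMap.ker_eq_bot.2 hl.1) (LinearMap.range_eq_top.2 hl.2)
  have hL : (L : E →L[ℝ] E₁ × ℝ) = (fderiv ℝ F x0).prod l := by
    ext v <;> rfl
  have hFd : ∀ x ∈ U, HasFDerivAt Φ ((fderiv ℝ F x).prod l) x := fun x hx =>
    ((hFsm x hx).differentiableAt (by simp)).hasFDerivAt.prodMk l.hasFDerivAt
  have hΦ0 : HasFDerivAt Φ (L : E →L[ℝ] E₁ × ℝ) x0 := by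
    rw [hL]
    exact hFd x0 hx0U
  set e := ContDiffAt.toOpenPartialHomeomorph Φ (hΦsm x0 hx0U) hΦ0 (by simp) with he
  have heΦ : ∀ x, e x = Φ x := fun x => rfl
  have hx0e : x0 ∈ e.source := ContDiffAt.mem_toOpenPartialHomeomorph_source _ _ _
  have hinv : ∀ᶠ x in 𝓝 x0, (fderiv ℝ F x).prod l ∈
      Set.range ((↑) : (E ≃L[ℝ] E₁ × ℝ) → E →L[ℝ] E₁ × ℝ) := by
    have h1 : ContinuousAt (fderiv ℝ F) x0 := (hFsm x0 hx0U).continuousAt_fderiv (by simp)
    have h2 : ContinuousAt (fun x => (fderiv ℝ F x).prod l) x0 := by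
      have h3 : Continuous (fun A : E →L[ℝ] E₁ => A.prod l) := by
        have h4 : (fun A : E →L[ℝ] E₁ => A.prod l) = fun A : E →L[ℝ] E₁ =>
            (ContinuousLinearMap.inl ℝ E₁ ℝ).comp A + (0 : E →L[ℝ] E₁).prod l := by
          funext A
          ext v <;> simp
        rw [h4]
        exact (continuous_const.clm_comp continuous_id).add continuous_const
      exact h3.continuousAt.comp h1
    have h5 : Tendsto (fun x => (fderiv ℝ F x).prod l) (𝓝 x0)
        (𝓝 (L : E →L[ℝ] E₁ × ℝ)) := by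
      rw [hL]
      exact h2
    exact h5.eventually L.nhds
  refine ⟨fun y => c.symm (e.symm y), e x0, ?_, ?_⟩
  · show c.symm (e.symm (e x0)) = p
    rw [e.left_inv hx0e, hcp]
  have hq : e x0 ∈ e.target := e.map_source hx0e
  have hcont : ContinuousAt e.symm (e x0) := e.continuousAt_symm hq
  have hsym0 : e.symm (e x0) = x0 := e.left_inv hx0e
  have htend : Tendsto e.symm (𝓝 (e x0)) (𝓝 x0) := by
    have h := hcont.tendsto
    rwa [hsym0] at h
  have htgt : ∀ᶠ y in 𝓝 (e x0), y ∈ e.target := e.open_target.mem_nhds hq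
  have hUev : ∀ᶠ y in 𝓝 (e x0), e.symm y ∈ U := htend.eventually (hUo.mem_nhds hx0U)
  have hInvev := htend.eventually hinv
  refine ⟨?_, ?_, ?_⟩
  · filter_upwards [htgt, hUev, hInvev] with y hy hyU hyI
    obtain ⟨L', hL'⟩ := hyI
    have hder : HasFDerivAt e (L' : E →L[ℝ] E₁ × ℝ) (e.symm y) := by
      rw [hL']
      exact hFd _ hyU
    have hsymm : ContDiffAt ℝ ∞ e.symm y := e.contDiffAt_symm hy hder (hΦsm _ hyU)
    have hsymd : HasFDerivAt e.symm (L'.symm : E₁ × ℝ →L[ℝ] E) y :=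
      e.hasFDerivAt_symm hy hder
    refine ⟨?_, ?_⟩
    · exact (hcs _ hyU).comp y (contMDiffAt_iff_contDiffAt.2 hsymm)
    · have hcd : MDifferentiableAt 𝓘(ℝ, E) 𝓘(ℝ, E) c.symm (e.symm y) :=
        (hcs _ hyU).mdifferentiableAt (by simp)
      have hed : MDifferentiableAt 𝓘(ℝ, E₁ × ℝ) 𝓘(ℝ, E) e.symm y :=
        hsymd.differentiableAt.mdifferentiableAt
      have hcomp := mfderiv_comp (I := 𝓘(ℝ, E₁ × ℝ)) (I' := 𝓘(ℝ, E)) (I'' := 𝓘(ℝ, E)) y
        (g := c.symm) (f := e.symm) hcd hed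
      have h1 : mfderiv 𝓘(ℝ, E₁ × ℝ) 𝓘(ℝ, E) (fun y => c.symm (e.symm y)) y =
          (mfderiv 𝓘(ℝ, E) 𝓘(ℝ, E) c.symm (e.symm y)).comp
            (mfderiv 𝓘(ℝ, E₁ × ℝ) 𝓘(ℝ, E) e.symm y) := hcomp
      rw [h1, mfderiv_eq_fderiv, hsymd.fderiv]
      have h2 : Function.Bijective (mfderiv 𝓘(ℝ, E) 𝓘(ℝ, E) c.symm (e.symm y)) := by
        have : IsManifold 𝓘(ℝ, E) 1 M := IsManifold.of_le (n := ∞) (by simp)
        have h3 := isInvertible_mfderivWithin_extChartAt_symm (I := 𝓘(ℝ, E)) (x := p)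
          (y := e.symm y) hyU.1
        rw [ModelWithCorners.range_eq_univ, mfderivWithin_univ] at h3
        exact h3.bijective
      exact h2.comp L'.symm.bijective
  · have h1 : ContinuousAt (fun y => pr (c.symm (e.symm y))) (e x0) := by
      have h2 : ContinuousAt c.symm (e.symm (e x0)) := by
        rw [hsym0]
        exact (hcs x0 hx0U).continuousAt
      exact hsm.continuous.continuousAt.comp (h2.comp hcont)
    apply h1.eventually
    refine (isOpen_extChartAt_source (I := 𝓘(ℝ, E₁)) (pr p)).mem_nhds ?_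
    show pr (c.symm (e.symm (e x0))) ∈ d.source
    rw [hsym0, hcp]
    exact mem_extChartAt_source (pr p)
  · filter_upwards [htgt] with y hy
    have h1 : e (e.symm y) = y := e.right_inv hy
    have h2 : Φ (e.symm y) = y := h1
    exact congrArg Prod.fst h2

end Pool.Agent.Lib.MP_df705a_gt.Circ
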