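import Pool.Agent.Lib.MP_df705a_gt.Circ.FibredDefs
import Pool.Agent.Lib.MP_df705a_gt.Circ.Normal
import Pool.Agent.Lib.MP_df705a_gt.Circ.SubChart

/-!
# TASK N4b: the connection in the new adapted parametrization
-/

open scoped Manifold ContDiff Topology
open Set Bundle Module Filter

noncomputable section

namespace Pool.Agent.Lib.MP_df705a_gt.Circ

open Pool.Agent.Lib.MP_df705a_gt.Twist Pool.Agent.Lib.MP_df705a_gt.Perm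

variable {E₁ : Type*} [NormedAddCommGroup E₁] [NormedSpace ℝ E₁] [FiniteDimensional ℝ E₁]
  {B : Type*} [TopologicalSpace B] [ChartedSpace E₁ B] [IsManifold 𝓘(ℝ, E₁) ∞ B]
  {E : Type*} [NormedAddCommGroup E] [NormedSpace ℝ E] [FiniteDimensional ℝ E]
  {M : Type*} [TopologicalSpace M] [ChartedSpace E M] [IsManifold 𝓘(ℝ, E) ∞ M]

namespace N4b

theorem fderiv_fst {τ : E₁ × ℝ → E₁ × ℝ} (hτ : ContDiff ℝ ∞ τ) (h1 : ∀ y, (τ y).1 = y.1)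
    (y v : E₁ × ℝ) : (fderiv ℝ τ y v).1 = v.1 := by
  have hd : DifferentiableAt ℝ τ y := hτ.contDiffAt.differentiableAt (by simp)
  have h2 : HasFDerivAt (fun p => (τ p).1)
      ((ContinuousLinearMap.fst ℝ E₁ ℝ).comp (fderiv ℝ τ y)) y :=
    (ContinuousLinearMap.fst ℝ E₁ ℝ).hasFDerivAt.comp y hd.hasFDerivAt
  have h3 : HasFDerivAt (fun p : E₁ × ℝ => (τ p).1) (ContinuousLinearMap.fst ℝ E₁ ℝ) y := by
    have h4 : (fun p : E₁ × ℝ => (τ p).1) = fun p => p.1 := funext h1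
    rw [h4]
    exact hasFDerivAt_fst
  have h5 := h2.unique h3
  exact DFunLike.congr_fun h5 v

theorem eventually_ne {τ : E₁ × ℝ → E₁ × ℝ} (hτ : ContDiff ℝ ∞ τ) {q : E₁ × ℝ}
    (h2 : (fderiv ℝ τ q (0, 1)).2 ≠ 0) : ∀ᶠ y in 𝓝 q, (fderiv ℝ τ y (0, 1)).2 ≠ 0 := by
  have hc : Continuous fun y => (fderiv ℝ τ y (0, 1)).2 :=
    continuous_snd.comp ((hτ.continuous_fderiv (by simp)).clm_apply continuous_const)
  exact hc.continuousAt.eventually_ne h2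

theorem tendsto {τ : E₁ × ℝ → E₁ × ℝ} (hτ : ContDiff ℝ ∞ τ) {q : E₁ × ℝ} (hq : τ q = q) :
    Tendsto τ (𝓝 q) (𝓝 q) := by
  have := hτ.continuous.tendsto q
  rwa [hq] at this

end N4b

theorem gam_comp (g : ContMDiffRiemannianMetric 𝓘(ℝ, E) ∞ E
      (fun x : M => TangentSpace 𝓘(ℝ, E) x))
    {pr : M → B} {σ : E₁ × ℝ → M} {q : E₁ × ℝ} {z : B} (hA : AC E pr σ q z)
    {τ : E₁ × ℝ → E₁ × ℝ} (hτ : ContDiff ℝ ∞ τ) (hq : τ q = q) (h1 : ∀ y, (τ y).1 = y.1)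
    (h2 : (fderiv ℝ τ q (0, 1)).2 ≠ 0) :
    gam g (σ ∘ τ) =ᶠ[𝓝 q] newG (gam g σ) τ := by
  have ht := N4b.tendsto hτ hq
  filter_upwards [ht.eventually hA.para, N4b.eventually_ne hτ h2] with y hy hb
  have hτy : ContMDiffAt 𝓘(ℝ, E₁ × ℝ) 𝓘(ℝ, E₁ × ℝ) ∞ τ y := hτ.contMDiff y
  have h3 : mfderiv 𝓘(ℝ, E₁ × ℝ) 𝓘(ℝ, E) (σ ∘ τ) y =
      (mfderiv 𝓘(ℝ, E₁ × ℝ) 𝓘(ℝ, E) σ (τ y)).comp
        (mfderiv 𝓘(ℝ, E₁ × ℝ) 𝓘(ℝ, E₁ × ℝ) τ y) :=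
    mfderiv_comp y (hy.smooth.mdifferentiableAt (by simp)) (hτy.mdifferentiableAt (by simp))
  rw [mfderiv_eq_fderiv] at h3
  have h4 : ∀ v w : E₁ × ℝ, gσ g (σ ∘ τ) y v w = gσ g σ (τ y) (fderiv ℝ τ y v) (fderiv ℝ τ y w) := by
    intro v w
    rw [gσ_apply, gσ_apply, h3]
    rfl
  have hpos : 0 < gσ g σ (τ y) (0, 1) (0, 1) := by
    rw [gσ_apply]
    refine g.pos _ _ ?_
    intro h0
    have h5 : ((0 : E₁), (1 : ℝ)) = 0 := by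
      apply hy.bij.1
      exact h0.trans (ContinuousLinearMap.map_zero
        (mfderiv 𝓘(ℝ, E₁ × ℝ) 𝓘(ℝ, E) σ (τ y))).symm
    simpa using congrArg Prod.snd h5
  set b : ℝ := (fderiv ℝ τ y (0, 1)).2 with hbdef
  have hTe : fderiv ℝ τ y (0, 1) = b • ((0 : E₁), (1 : ℝ)) := by
    apply Prod.ext
    · rw [N4b.fderiv_fst hτ h1]
      simp
    · simp [hbdef]
  ext u
  have hTu : fderiv ℝ τ y (u, 0) = (u, (0 : ℝ)) + (fderiv ℝ τ y (u, 0)).2 • ((0 : E₁), (1 : ℝ)) := by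
    apply Prod.ext
    · rw [N4b.fderiv_fst hτ h1]
      simp
    · simp
  have hL : gam g (σ ∘ τ) y u =
      -(gσ g (σ ∘ τ) y (0, 1) (0, 1))⁻¹ * gσ g (σ ∘ τ) y (0, 1) (u, 0) := rfl
  have hR : newG (gam g σ) τ y u = b⁻¹ * (-(gσ g σ (τ y) (0, 1) (0, 1))⁻¹ *
      gσ g σ (τ y) (0, 1) (u, 0) - (fderiv ℝ τ y (u, 0)).2) := rfl
  rw [hL, hR, h4, h4, hTe, hTu]
  simp only [map_smul, map_add, _root_.smul_apply, smul_eq_mul]
  have hne := hpos.ne'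
  simp only [Prod.snd_add, Prod.smul_snd, smul_eq_mul, mul_one, zero_add]
  field_simp
  ring

end Pool.Agent.Lib.MP_df705a_gt.Circ
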