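import Pool.Agent.Lib.MP_df705a_gt.Mg.G054

/-!
# TASK J2: the quadratic term is nonnegative
-/

noncomputable section

namespace Pool.Agent.Lib.MP_df705a_gt.Circ

open Module Pool.Agent.Lib.MP_df705a_gt.Twist.Alg

namespace QuadAux

open scoped MatrixOrder in
/-- The inverse of a positive definite real matrix has the form `Sᵀ S`. -/
theorem exists_sq {ι : Type*} [Fintype ι] [DecidableEq ι] {A : Matrix ι ι ℝ} (hA : A.PosDef) :
    ∃ S : Matrix ι ι ℝ, ∀ i j, A⁻¹ i j = ∑ r, S r i * S r j := by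
  obtain ⟨S, hS⟩ := CStarAlgebra.nonneg_iff_eq_star_mul_self.1 hA.inv.posSemidef.nonneg
  refine ⟨S, fun i j => ?_⟩
  rw [hS, Matrix.mul_apply]
  simp [Matrix.star_eq_conjTranspose]

variable {V : Type*} [AddCommGroup V] [Module ℝ V] {ι : Type*} [Fintype ι] [DecidableEq ι]
  {e : Basis ι ℝ V} {h : Bil V}

theorem tr_sum {τ : Type*} [Fintype τ] (T : τ → V → V → ℝ) :
    tr e h (fun u v => ∑ t, T t u v) = ∑ t, tr e h (T t) := by
  simp only [tr, Finset.mul_sum]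
  rw [Finset.sum_congr rfl fun i _ => Finset.sum_comm, Finset.sum_comm]

theorem tr_prod {S : Matrix ι ι ℝ} (hS : ∀ i j, (gram e h)⁻¹ i j = ∑ r, S r i * S r j)
    (F G : V → ℝ) :
    tr e h (fun u v => F u * G v) = ∑ r, (∑ i, S r i * F (e i)) * (∑ j, S r j * G (e j)) := by
  simp only [tr, hS, Finset.sum_mul]
  rw [Finset.sum_congr rfl fun i _ => Finset.sum_comm, Finset.sum_comm]
  refine Finset.sum_congr rfl fun r _ => Finset.sum_congr rfl fun i _ => ?_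
  rw [Finset.mul_sum]
  refine Finset.sum_congr rfl fun j _ => ?_
  ring

end QuadAux

variable {V₁ V₂ : Type*} [AddCommGroup V₁] [Module ℝ V₁] [AddCommGroup V₂] [Module ℝ V₂]
  {ι₁ ι₂ : Type*} [Fintype ι₁] [DecidableEq ι₁] [Fintype ι₂] [DecidableEq ι₂]
  {e₁ : Basis ι₁ ℝ V₁} {e₂ : Basis ι₂ ℝ V₂} {H : Bil V₁} {K : Bil V₂}

theorem quad_nonneg (hH : Nondeg e₁ H) (hK : Nondeg e₂ K) (Hp : (gram e₁ H).PosDef)
    (Kp : (gram e₂ K).PosDef) (m : V₁ →ₗ[ℝ] V₁ →ₗ[ℝ] V₂ →ₗ[ℝ] ℝ) :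
    0 ≤ tr e₁ H (fun x x' => tr e₁ H fun u u' => cop e₂ K (m x u) (m x' u')) := by
  obtain ⟨S, hS⟩ := QuadAux.exists_sq Hp
  obtain ⟨T, hT⟩ := QuadAux.exists_sq Kp
  have h3 : ∀ x u x' u', cop e₂ K (m x u) (m x' u') =
      ∑ t, (∑ a, T t a * m x u (e₂ a)) * (∑ a, T t a * m x' u' (e₂ a)) :=
    fun x u x' u' => QuadAux.tr_prod hT _ _
  simp only [h3, QuadAux.tr_sum]
  refine Finset.sum_nonneg fun t _ => ?_
  have h2 : ∀ x x', (tr e₁ H fun u u' => (∑ a, T t a * m x u (e₂ a)) *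
      (∑ a, T t a * m x' u' (e₂ a))) =
      ∑ s, (∑ k, S s k * ∑ a, T t a * m x (e₁ k) (e₂ a)) *
          (∑ k, S s k * ∑ a, T t a * m x' (e₁ k) (e₂ a)) :=
    fun x x' => QuadAux.tr_prod hS (fun u => ∑ a, T t a * m x u (e₂ a))
      (fun u' => ∑ a, T t a * m x' u' (e₂ a))
  simp only [h2, QuadAux.tr_sum]
  refine Finset.sum_nonneg fun s _ => ?_
  rw [QuadAux.tr_prod hS (fun x => ∑ k, S s k * ∑ a, T t a * m x (e₁ k) (e₂ a))
    (fun x' => ∑ k, S s k * ∑ a, T t a * m x' (e₁ k) (e₂ a))]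
  exact Finset.sum_nonneg fun r _ => mul_self_nonneg _

end Pool.Agent.Lib.MP_df705a_gt.Circ
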