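import Pool.Agent.Lib.MP_df705a_gt.Circ.OffDefs
import Pool.Agent.Lib.MP_df705a_gt.Mg.G054

/-!
# TASK J1: the scalar curvature of the perturbed jet
-/

noncomputable section

namespace Pool.Agent.Lib.MP_df705a_gt.Circ

open Module Pool.Agent.Lib.MP_df705a_gt.Twist.Alg

namespace OffScalAux

section

variable {V : Type*} [AddCommGroup V] [Module ℝ V] {ι : Type*} [Fintype ι]
  [DecidableEq ι] {e : Basis ι ℝ V} {h : Bil V}

theorem sym_anti (S A : V → V → ℝ) (hS : ∀ u v, S u v = S v u) (hA : ∀ u v, A u v = -A v u) :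
    tr e h (fun u z => cop e h (S u) (A z)) = 0 := by
  have h1 : tr e h (fun u z => cop e h (S u) (A z)) =
      -tr e h (fun u z => cop e h (S u) (A z)) := by
    conv_lhs => unfold cop
    rw [tr_comm, ← tr_neg]
    refine tr_congr fun x y => ?_
    unfold cop
    rw [← tr_neg]
    refine tr_congr fun u z => ?_
    rw [hS u x, hA z y]
    ring
  linarith

theorem sym_anti' (S A : V → V → ℝ) (hS : ∀ u v, S u v = S v u) (hA : ∀ u v, A u v = -A v u) :
    tr e h (fun u z => cop e h (A u) (S z)) = 0 := by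
  have h1 : tr e h (fun u z => cop e h (A u) (S z)) =
      -tr e h (fun u z => cop e h (A u) (S z)) := by
    conv_lhs => unfold cop
    rw [tr_comm, ← tr_neg]
    refine tr_congr fun x y => ?_
    unfold cop
    rw [← tr_neg]
    refine tr_congr fun u z => ?_
    rw [hS z y, hA u x]
    ring
  linarith

theorem tr_zero : tr e h (fun _ _ => 0) = 0 := by simp [tr]

theorem tr_anti (hh : Nondeg e h) (A : V → V → ℝ) (hA : ∀ u v, A u v = -A v u) :
    tr e h A = 0 := by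
  have h1 : tr e h A = -tr e h A := by
    rw [← tr_neg, ← tr_flip hh]
    refine tr_congr fun u v => ?_
    rw [hA v u]
  linarith

end

variable {V₁ V₂ : Type*} [AddCommGroup V₁] [Module ℝ V₁] [AddCommGroup V₂] [Module ℝ V₂]
  {ι₁ ι₂ : Type*} [Fintype ι₁] [DecidableEq ι₁] [Fintype ι₂] [DecidableEq ι₂]
  {e₁ : Basis ι₁ ℝ V₁} {e₂ : Basis ι₂ ℝ V₂} {H : Bil V₁} {K : Bil V₂} {g : Bil (V₁ × V₂)}
  {D D' : (V₁ × V₂) →ₗ[ℝ] Bil (V₁ × V₂)} {D2 D2' : (V₁ × V₂) →ₗ[ℝ] (V₁ × V₂) →ₗ[ℝ] Bil (V₁ × V₂)}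
  {m : V₁ →ₗ[ℝ] V₁ →ₗ[ℝ] V₂ →ₗ[ℝ] ℝ}
  {n : (V₁ × V₂) →ₗ[ℝ] (V₁ × V₂) →ₗ[ℝ] V₁ →ₗ[ℝ] V₂ →ₗ[ℝ] ℝ}

theorem tr4 (hH : Nondeg e₁ H) (hK : Nondeg e₂ K)
    (hg : ∀ u v, g u v = H u.1 v.1 + K u.2 v.2)
    (T : V₁ × V₂ → V₁ × V₂ → V₁ × V₂ → V₁ × V₂ → ℝ) :
    tr (e₁.prod e₂) g (fun u z => tr (e₁.prod e₂) g fun v w => T u v w z) =
      tr e₁ H (fun u z => tr e₁ H (fun v w => T (u, 0) (v, 0) (w, 0) (z, 0))) +
      tr e₁ H (fun u z => tr e₂ K (fun v w => T (u, 0) (0, v) (0, w) (z, 0))) +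
      (tr e₂ K (fun u z => tr e₁ H (fun v w => T (0, u) (v, 0) (w, 0) (0, z))) +
      tr e₂ K (fun u z => tr e₂ K (fun v w => T (0, u) (0, v) (0, w) (0, z)))) := by
  rw [tr_prod hH hK hg]
  simp only [tr_prod hH hK hg]
  rw [tr_add, tr_add]

/-- the perturbation of the Christoffel symbol -/
def Cf (m : V₁ →ₗ[ℝ] V₁ →ₗ[ℝ] V₂ →ₗ[ℝ] ℝ) (u v w : V₁ × V₂) : ℝ :=
  m u.1 w.1 v.2 + m v.1 w.1 u.2

/-- the perturbation of the second derivative -/
def Pf (e₂ : Basis ι₂ ℝ V₂) (K : Bil V₂) (m : V₁ →ₗ[ℝ] V₁ →ₗ[ℝ] V₂ →ₗ[ℝ] ℝ)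
    (n : (V₁ × V₂) →ₗ[ℝ] (V₁ × V₂) →ₗ[ℝ] V₁ →ₗ[ℝ] V₂ →ₗ[ℝ] ℝ) (x x' u v : V₁ × V₂) : ℝ :=
  n x x' u.1 v.2 + n x x' v.1 u.2 +
    (cop e₂ K (m x.1 u.1) (m x'.1 v.1) + cop e₂ K (m x'.1 u.1) (m x.1 v.1))

theorem chr_eq (O : Off e₁ e₂ H K g D D' D2 D2' m n) (u v : V₁ × V₂) :
    (chr D' u v : V₁ × V₂ → ℝ) = (chr D u v : V₁ × V₂ → ℝ) + Cf m u v := by
  funext w
  rw [Pi.add_apply, chr_apply, chr_apply, O.hD, O.hD, O.hD]
  unfold Cf
  have a1 := O.anti u.1 v.1 w.2
  have a2 := O.anti w.1 u.1 v.2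
  have a3 := O.anti w.1 v.1 u.2
  linarith

theorem curv_eq (O : Off e₁ e₂ H K g D D' D2 D2' m n) (u v w z : V₁ × V₂) :
    curv (e₁.prod e₂) g D' D2' u v w z = curv (e₁.prod e₂) g D D2 u v w z +
      (1 / 2) * (Pf e₂ K m n u w v z - Pf e₂ K m n u z v w - Pf e₂ K m n v w u z +
        Pf e₂ K m n v z u w) +
      (cop (e₁.prod e₂) g (chr D u w) (Cf m v z) + cop (e₁.prod e₂) g (Cf m u w) (chr D v z) +
        cop (e₁.prod e₂) g (Cf m u w) (Cf m v z) -
        (cop (e₁.prod e₂) g (chr D v w) (Cf m u z) + cop (e₁.prod e₂) g (Cf m v w) (chr D u z) +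
        cop (e₁.prod e₂) g (Cf m v w) (Cf m u z))) := by
  unfold curv
  rw [chr_eq O, chr_eq O, chr_eq O, chr_eq O]
  rw [cop_add_left, cop_add_right, cop_add_right, cop_add_left, cop_add_right, cop_add_right]
  rw [chr_apply, chr_apply, chr_apply, chr_apply]
  rw [O.hD2 u v, O.hD2 u w, O.hD2 u z, O.hD2 v u, O.hD2 v w, O.hD2 v z]
  unfold Pf
  have a1 := O.sn u v w.1 z.2
  have a2 := O.sn u v z.1 w.2
  rw [a1, a2]
  have a3 := cop_comm O.hK (m u.1 w.1) (m v.1 z.1)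
  have a4 := cop_comm O.hK (m v.1 w.1) (m u.1 z.1)
  ring

end OffScalAux

open OffScalAux

variable {V₁ V₂ : Type*} [AddCommGroup V₁] [Module ℝ V₁] [AddCommGroup V₂] [Module ℝ V₂]
  {ι₁ ι₂ : Type*} [Fintype ι₁] [DecidableEq ι₁] [Fintype ι₂] [DecidableEq ι₂]
  {e₁ : Basis ι₁ ℝ V₁} {e₂ : Basis ι₂ ℝ V₂} {H : Bil V₁} {K : Bil V₂} {g : Bil (V₁ × V₂)}
  {D D' : (V₁ × V₂) →ₗ[ℝ] Bil (V₁ × V₂)} {D2 D2' : (V₁ × V₂) →ₗ[ℝ] (V₁ × V₂) →ₗ[ℝ] Bil (V₁ × V₂)}
  {m : V₁ →ₗ[ℝ] V₁ →ₗ[ℝ] V₂ →ₗ[ℝ] ℝ}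
  {n : (V₁ × V₂) →ₗ[ℝ] (V₁ × V₂) →ₗ[ℝ] V₁ →ₗ[ℝ] V₂ →ₗ[ℝ] ℝ}

theorem Off.scal_eq (O : Off e₁ e₂ H K g D D' D2 D2' m n) :
    scal (e₁.prod e₂) g D' D2' = scal (e₁.prod e₂) g D D2 +
      2 * tr e₁ H (fun x u => tr e₂ K fun y v => n (x, 0) (0, y) u v) -
      tr e₁ H (fun x x' => tr e₁ H fun u u' => cop e₂ K (m x u) (m x' u')) := by
  have hH := O.hH
  have hK := O.hK
  have hg := O.hg
  have ma : ∀ x u, m x u = -m u x := fun x u => LinearMap.ext fun v => by
    rw [LinearMap.neg_apply]; exact O.anti x u v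
  have mc : ∀ x u, (m x u : V₂ → ℝ) = (-1 : ℝ) • (m u x : V₂ → ℝ) := by
    intro x u
    rw [ma]
    funext v
    simp
  have z0 : ((0 : V₂ →ₗ[ℝ] ℝ) : V₂ → ℝ) = 0 := rfl
  -- the quadratic term
  set Q : ℝ := tr e₁ H (fun x x' => tr e₁ H fun u u' => cop e₂ K (m x u) (m x' u')) with hQ
  set N : ℝ := tr e₁ H (fun x u => tr e₂ K fun y v => n (x, 0) (0, y) u v) with hN
  -- the second order part
  have hP : tr (e₁.prod e₂) g (fun u z => tr (e₁.prod e₂) g fun v w =>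
      (1 / 2) * (Pf e₂ K m n u w v z - Pf e₂ K m n u z v w - Pf e₂ K m n v w u z +
        Pf e₂ K m n v z u w)) = 2 * N - 3 * Q := by
    rw [tr4 hH hK hg (fun u v w z => (1 / 2) * (Pf e₂ K m n u w v z - Pf e₂ K m n u z v w -
      Pf e₂ K m n v w u z + Pf e₂ K m n v z u w))]
    have b11 : tr e₁ H (fun u z => tr e₁ H (fun v w =>
        (1 / 2) * (Pf e₂ K m n (u, 0) (w, 0) (v, 0) (z, 0) -
          Pf e₂ K m n (u, 0) (z, 0) (v, 0) (w, 0) -
          Pf e₂ K m n (v, 0) (w, 0) (u, 0) (z, 0) +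
          Pf e₂ K m n (v, 0) (z, 0) (u, 0) (w, 0)))) = -3 * Q := by
      have q1 : tr e₁ H (fun u z => tr e₁ H fun v w => cop e₂ K (m u v) (m z w)) = Q := rfl
      have q2 : tr e₁ H (fun u z => tr e₁ H fun v w => cop e₂ K (m z v) (m u w)) = Q := by
        rw [← q1, ← tr_flip hH]
      have q3 : tr e₁ H (fun u z => tr e₁ H fun v w => cop e₂ K (m u w) (m z v)) = Q := by
        rw [← q1]
        refine tr_congr fun u z => ?_
        rw [← tr_flip hH]
      have z1 : ∀ u z, tr e₁ H (fun v w => cop e₂ K (m w v) (m u z)) = 0 := by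
        intro u z
        refine tr_anti hH _ fun v w => ?_
        rw [mc w v, cop_smul_left]
        ring
      have z2 : ∀ u z, tr e₁ H (fun v w => cop e₂ K (m u z) (m v w)) = 0 := by
        intro u z
        refine tr_anti hH _ fun v w => ?_
        rw [mc v w, cop_smul_right]
        ring
      have key : ∀ u z v w, (1 / 2) * (Pf e₂ K m n (u, 0) (w, 0) (v, 0) (z, 0) -
          Pf e₂ K m n (u, 0) (z, 0) (v, 0) (w, 0) -
          Pf e₂ K m n (v, 0) (w, 0) (u, 0) (z, 0) +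
          Pf e₂ K m n (v, 0) (z, 0) (u, 0) (w, 0)) =
          (-2) * cop e₂ K (m u v) (m z w) + (1 / 2) * cop e₂ K (m w v) (m u z) -
          (1 / 2) * cop e₂ K (m z v) (m u w) - (1 / 2) * cop e₂ K (m u w) (m z v) +
          (1 / 2) * cop e₂ K (m z u) (m v w) := by
        intro u z v w
        unfold Pf
        simp only [map_zero]
        rw [mc w z, mc v u, mc w u, mc v z]
        simp only [cop_smul_left, cop_smul_right]
        ring
      simp only [key, tr_add, tr_sub, tr_const_mul]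
      rw [q1, q2, q3]
      simp only [z1, z2]
      rw [tr_zero]
      ring
    have b12 : tr e₁ H (fun u z => tr e₂ K (fun v w =>
        (1 / 2) * (Pf e₂ K m n (u, 0) (0, w) (0, v) (z, 0) -
          Pf e₂ K m n (u, 0) (z, 0) (0, v) (0, w) -
          Pf e₂ K m n (0, v) (0, w) (u, 0) (z, 0) +
          Pf e₂ K m n (0, v) (z, 0) (u, 0) (0, w)))) = N := by
      have key : ∀ u z v w, (1 / 2) * (Pf e₂ K m n (u, 0) (0, w) (0, v) (z, 0) -
          Pf e₂ K m n (u, 0) (z, 0) (0, v) (0, w) -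
          Pf e₂ K m n (0, v) (0, w) (u, 0) (z, 0) +
          Pf e₂ K m n (0, v) (z, 0) (u, 0) (0, w)) =
          (1 / 2) * n (u, 0) (0, w) z v + (1 / 2) * n (z, 0) (0, v) u w := by
        intro u z v w
        unfold Pf
        rw [O.sn (0, v) (z, 0) u w]
        simp only [map_zero, LinearMap.zero_apply, z0, cop_zero_left,
          cop_zero_right]
        ring
      simp only [key, tr_add, tr_const_mul]
      have q1 : tr e₁ H (fun u z => tr e₂ K fun v w => n (u, 0) (0, w) z v) = N := by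
        rw [hN]
        refine tr_congr fun u z => ?_
        rw [← tr_flip hK]
      have q2 : tr e₁ H (fun u z => tr e₂ K fun v w => n (z, 0) (0, v) u w) = N := by
        rw [hN, ← tr_flip hH]
      rw [q1, q2]
      ring
    have b21 : tr e₂ K (fun u z => tr e₁ H (fun v w =>
        (1 / 2) * (Pf e₂ K m n (0, u) (w, 0) (v, 0) (0, z) -
          Pf e₂ K m n (0, u) (0, z) (v, 0) (w, 0) -
          Pf e₂ K m n (v, 0) (w, 0) (0, u) (0, z) +
          Pf e₂ K m n (v, 0) (0, z) (0, u) (w, 0)))) = N := by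
      have key : ∀ u z v w, (1 / 2) * (Pf e₂ K m n (0, u) (w, 0) (v, 0) (0, z) -
          Pf e₂ K m n (0, u) (0, z) (v, 0) (w, 0) -
          Pf e₂ K m n (v, 0) (w, 0) (0, u) (0, z) +
          Pf e₂ K m n (v, 0) (0, z) (0, u) (w, 0)) =
          (1 / 2) * n (w, 0) (0, u) v z + (1 / 2) * n (v, 0) (0, z) w u := by
        intro u z v w
        unfold Pf
        rw [O.sn (0, u) (w, 0) v z]
        simp only [map_zero, LinearMap.zero_apply, z0, cop_zero_left,
          cop_zero_right]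
        ring
      simp only [key]
      rw [tr_comm]
      simp only [tr_add, tr_const_mul]
      have q1 : tr e₁ H (fun v w => tr e₂ K fun u z => n (w, 0) (0, u) v z) = N := by
        rw [hN, ← tr_flip hH]
      have q2 : tr e₁ H (fun v w => tr e₂ K fun u z => n (v, 0) (0, z) w u) = N := by
        rw [hN]
        refine tr_congr fun v w => ?_
        rw [← tr_flip hK]
      rw [q1, q2]
      ring
    have b22 : tr e₂ K (fun u z => tr e₂ K (fun v w =>
        (1 / 2) * (Pf e₂ K m n (0, u) (0, w) (0, v) (0, z) -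
          Pf e₂ K m n (0, u) (0, z) (0, v) (0, w) -
          Pf e₂ K m n (0, v) (0, w) (0, u) (0, z) +
          Pf e₂ K m n (0, v) (0, z) (0, u) (0, w)))) = 0 := by
      have key : ∀ u z v w, (1 / 2) * (Pf e₂ K m n (0, u) (0, w) (0, v) (0, z) -
          Pf e₂ K m n (0, u) (0, z) (0, v) (0, w) -
          Pf e₂ K m n (0, v) (0, w) (0, u) (0, z) +
          Pf e₂ K m n (0, v) (0, z) (0, u) (0, w)) = 0 := by
        intro u z v w
        unfold Pf
        simp only [map_zero, LinearMap.zero_apply, z0, cop_zero_left]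
        ring
      simp only [key, tr_zero]
    rw [b11, b12, b21, b22]
    ring
  -- the first order part
  have hC : tr (e₁.prod e₂) g (fun u z => tr (e₁.prod e₂) g fun v w =>
      (cop (e₁.prod e₂) g (chr D u w) (Cf m v z) + cop (e₁.prod e₂) g (Cf m u w) (chr D v z) +
        cop (e₁.prod e₂) g (Cf m u w) (Cf m v z) -
        (cop (e₁.prod e₂) g (chr D v w) (Cf m u z) + cop (e₁.prod e₂) g (Cf m v w) (chr D u z) +
        cop (e₁.prod e₂) g (Cf m v w) (Cf m u z)))) = 2 * Q := by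
    rw [tr4 hH hK hg (fun u v w z => (cop (e₁.prod e₂) g (chr D u w) (Cf m v z) +
      cop (e₁.prod e₂) g (Cf m u w) (chr D v z) +
        cop (e₁.prod e₂) g (Cf m u w) (Cf m v z) -
        (cop (e₁.prod e₂) g (chr D v w) (Cf m u z) + cop (e₁.prod e₂) g (Cf m v w) (chr D u z) +
        cop (e₁.prod e₂) g (Cf m v w) (Cf m u z))))]
    have c11 : ∀ u v : V₁, Cf m (u, 0) (v, 0) = (0 : V₁ × V₂ → ℝ) := by
      intro u v
      funext w
      simp [Cf]
    have c22 : ∀ u v : V₂, Cf m (0, u) (0, v) = (0 : V₁ × V₂ → ℝ) := by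
      intro u v
      funext w
      simp [Cf]
    have c12 : ∀ (u : V₁) (v : V₂), Cf m (u, 0) (0, v) = fun w : V₁ × V₂ => m u w.1 v := by
      intro u v
      funext w
      simp [Cf]
    have c21 : ∀ (u : V₂) (v : V₁), Cf m (0, u) (v, 0) = fun w : V₁ × V₂ => m v w.1 u := by
      intro u v
      funext w
      simp [Cf]
    have d12 : ∀ (u : V₁) (w : V₂) (x : V₁),
        chr D (u, 0) (0, w) (x, 0) = (1 / 2) * D (0, w) (u, 0) (x, 0) := by
      intro u w x
      rw [chr_apply, O.d21, O.d12]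
      ring
    have d21 : ∀ (w : V₂) (u : V₁) (x : V₁),
        chr D (0, w) (u, 0) (x, 0) = (1 / 2) * D (0, w) (u, 0) (x, 0) := by
      intro w u x
      rw [chr_apply, O.d21, O.d21]
      ring
    have b11 : tr e₁ H (fun u z => tr e₁ H (fun v w =>
        (cop (e₁.prod e₂) g (chr D (u, 0) (w, 0)) (Cf m (v, 0) (z, 0)) +
          cop (e₁.prod e₂) g (Cf m (u, 0) (w, 0)) (chr D (v, 0) (z, 0)) +
          cop (e₁.prod e₂) g (Cf m (u, 0) (w, 0)) (Cf m (v, 0) (z, 0)) -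
          (cop (e₁.prod e₂) g (chr D (v, 0) (w, 0)) (Cf m (u, 0) (z, 0)) +
            cop (e₁.prod e₂) g (Cf m (v, 0) (w, 0)) (chr D (u, 0) (z, 0)) +
            cop (e₁.prod e₂) g (Cf m (v, 0) (w, 0)) (Cf m (u, 0) (z, 0)))))) = 0 := by
      simp only [c11, cop_zero_left, cop_zero_right, add_zero, sub_zero, tr_zero]
    have b22 : tr e₂ K (fun u z => tr e₂ K (fun v w =>
        (cop (e₁.prod e₂) g (chr D (0, u) (0, w)) (Cf m (0, v) (0, z)) +
          cop (e₁.prod e₂) g (Cf m (0, u) (0, w)) (chr D (0, v) (0, z)) +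
          cop (e₁.prod e₂) g (Cf m (0, u) (0, w)) (Cf m (0, v) (0, z)) -
          (cop (e₁.prod e₂) g (chr D (0, v) (0, w)) (Cf m (0, u) (0, z)) +
            cop (e₁.prod e₂) g (Cf m (0, v) (0, w)) (chr D (0, u) (0, z)) +
            cop (e₁.prod e₂) g (Cf m (0, v) (0, w)) (Cf m (0, u) (0, z)))))) = 0 := by
      simp only [c22, cop_zero_left, cop_zero_right, add_zero, sub_zero, tr_zero]
    have b12 : tr e₁ H (fun u z => tr e₂ K (fun v w =>
        (cop (e₁.prod e₂) g (chr D (u, 0) (0, w)) (Cf m (0, v) (z, 0)) +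
          cop (e₁.prod e₂) g (Cf m (u, 0) (0, w)) (chr D (0, v) (z, 0)) +
          cop (e₁.prod e₂) g (Cf m (u, 0) (0, w)) (Cf m (0, v) (z, 0)) -
          (cop (e₁.prod e₂) g (chr D (0, v) (0, w)) (Cf m (u, 0) (z, 0)) +
            cop (e₁.prod e₂) g (Cf m (0, v) (0, w)) (chr D (u, 0) (z, 0)) +
            cop (e₁.prod e₂) g (Cf m (0, v) (0, w)) (Cf m (u, 0) (z, 0)))))) = Q := by
      simp only [c11, c22, c12, c21, cop_zero_left, cop_zero_right, add_zero, sub_zero]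
      simp only [cop_prod hH hK hg, d12, d21, map_zero, LinearMap.zero_apply]
      have k0 : ∀ ξ : V₂ → ℝ, cop e₂ K ξ (fun _ => 0) = 0 := fun ξ => cop_zero_right ξ
      have k0' : ∀ ξ : V₂ → ℝ, cop e₂ K (fun _ => 0) ξ = 0 := fun ξ => cop_zero_left ξ
      simp only [k0, k0', add_zero]
      rw [tr_comm]
      simp only [tr_add]
      have y1 : ∀ v w, tr e₁ H (fun u z => cop e₁ H
          (fun x => (1 / 2) * D (0, w) (u, 0) (x, 0)) (fun x => m z x v)) = 0 := by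
        intro v w
        refine sym_anti (fun u x => (1 / 2) * D (0, w) (u, 0) (x, 0)) (fun z x => m z x v)
          (fun u x => ?_) (fun z x => O.anti z x v)
        rw [O.sD]
      have y2 : ∀ v w, tr e₁ H (fun u z => cop e₁ H (fun x => m u x w)
          (fun x => (1 / 2) * D (0, v) (z, 0) (x, 0))) = 0 := by
        intro v w
        refine sym_anti' (fun z x => (1 / 2) * D (0, v) (z, 0) (x, 0)) (fun u x => m u x w)
          (fun u x => ?_) (fun z x => O.anti z x w)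
        rw [O.sD]
      simp only [y1, y2, tr_zero, zero_add]
      rw [hQ, ← tr_flip hK, tr_comm]
      refine tr_congr fun u z => ?_
      unfold cop
      rw [tr_comm]
    have b21 : tr e₂ K (fun u z => tr e₁ H (fun v w =>
        (cop (e₁.prod e₂) g (chr D (0, u) (w, 0)) (Cf m (v, 0) (0, z)) +
          cop (e₁.prod e₂) g (Cf m (0, u) (w, 0)) (chr D (v, 0) (0, z)) +
          cop (e₁.prod e₂) g (Cf m (0, u) (w, 0)) (Cf m (v, 0) (0, z)) -
          (cop (e₁.prod e₂) g (chr D (v, 0) (w, 0)) (Cf m (0, u) (0, z)) +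
            cop (e₁.prod e₂) g (Cf m (v, 0) (w, 0)) (chr D (0, u) (0, z)) +
            cop (e₁.prod e₂) g (Cf m (v, 0) (w, 0)) (Cf m (0, u) (0, z)))))) = Q := by
      simp only [c11, c22, c12, c21, cop_zero_left, cop_zero_right, add_zero, sub_zero]
      simp only [cop_prod hH hK hg, d12, d21, map_zero, LinearMap.zero_apply]
      have k0 : ∀ ξ : V₂ → ℝ, cop e₂ K ξ (fun _ => 0) = 0 := fun ξ => cop_zero_right ξ
      have k0' : ∀ ξ : V₂ → ℝ, cop e₂ K (fun _ => 0) ξ = 0 := fun ξ => cop_zero_left ξ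
      simp only [k0, k0', add_zero]
      simp only [tr_add]
      have y1 : ∀ u z, tr e₁ H (fun v w => cop e₁ H
          (fun x => (1 / 2) * D (0, u) (w, 0) (x, 0)) (fun x => m v x z)) = 0 := by
        intro u z
        rw [← tr_flip hH]
        refine sym_anti (fun v x => (1 / 2) * D (0, u) (v, 0) (x, 0)) (fun v x => m v x z)
          (fun u x => ?_) (fun v x => O.anti v x z)
        rw [O.sD]
      have y2 : ∀ u z, tr e₁ H (fun v w => cop e₁ H (fun x => m w x u)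
          (fun x => (1 / 2) * D (0, z) (v, 0) (x, 0))) = 0 := by
        intro u z
        rw [← tr_flip hH]
        refine sym_anti' (fun z' x => (1 / 2) * D (0, z) (z', 0) (x, 0)) (fun w x => m w x u)
          (fun u x => ?_) (fun w x => O.anti w x u)
        rw [O.sD]
      simp only [y1, y2, tr_zero, zero_add]
      rw [hQ, tr_comm, ← tr_flip hH]
      refine tr_congr fun u z => ?_
      unfold cop
      rw [tr_comm]
    rw [b11, b12, b21, b22]
    ring
  unfold scal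
  simp only [curv_eq O, tr_add] at hP hC ⊢
  rw [hP, hC]
  ring

end Pool.Agent.Lib.MP_df705a_gt.Circ
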