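import Pool.Agent.Lib.MP_df705a_gt.Mg.G058
import Pool.Agent.Lib.MP_df705a_gt.Circ.OffQuad
import Pool.Agent.Lib.MP_df705a_gt.Circ.OffScal

/-!
# TASK J3: the scalar curvature of a connection metric in normal form
-/

open scoped Manifold ContDiff Topology
open Set Bundle Module Filter

noncomputable section

set_option linter.unusedSectionVars false
set_option linter.unusedSimpArgs false

namespace Pool.Agent.Lib.MP_df705a_gt.Circ

open Pool.Agent.Lib.MP_df705a_gt.Twist Pool.Agent.Lib.MP_df705a_gt.Perm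

namespace J3

open Pool.Agent.Lib.MP_df705a_gt.Twist.Alg
open Pool.Agent.Lib.MP_df705a_gt.Sub (mB)

section calculus

variable {X : Type*} [NormedAddCommGroup X] [NormedSpace ℝ X] {φ ψ : X → ℝ} {q : X}

theorem mul_fderiv (hφ : ContDiffAt ℝ ∞ φ q) (hψ : ContDiffAt ℝ ∞ ψ q) (u : X) :
    fderiv ℝ (fun y => φ y * ψ y) q u = φ q * fderiv ℝ ψ q u + ψ q * fderiv ℝ φ q u := by
  rw [fderiv_fun_mul (eventually_differentiableAt hφ).self_of_nhds
    (eventually_differentiableAt hψ).self_of_nhds]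
  simp only [_root_.smul_apply, _root_.add_apply, smul_eq_mul]

theorem mul_fderiv2 (hφ : ContDiffAt ℝ ∞ φ q) (hψ : ContDiffAt ℝ ∞ ψ q) (u v : X) :
    fderiv ℝ (fderiv ℝ fun y => φ y * ψ y) q u v = φ q * fderiv ℝ (fderiv ℝ ψ) q u v +
      fderiv ℝ φ q u * fderiv ℝ ψ q v + fderiv ℝ φ q v * fderiv ℝ ψ q u +
      ψ q * fderiv ℝ (fderiv ℝ φ) q u v := by
  rw [← fderiv_fderiv_apply (hφ.mul hψ)]
  have h1 : (fun y => fderiv ℝ (fun y => φ y * ψ y) y v) =ᶠ[𝓝 q]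
      fun y => φ y * fderiv ℝ ψ y v + ψ y * fderiv ℝ φ y v := by
    filter_upwards [eventually_differentiableAt hφ, eventually_differentiableAt hψ] with y h1 h2
    rw [fderiv_fun_mul h1 h2]
    simp only [_root_.smul_apply, _root_.add_apply, smul_eq_mul]
  have d1 := (eventually_differentiableAt hφ).self_of_nhds
  have d2 := (eventually_differentiableAt hψ).self_of_nhds
  have d3 : DifferentiableAt ℝ (fun y => fderiv ℝ ψ y v) q :=
    (differentiableAt_fderiv hψ).clm_apply (differentiableAt_const v)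
  have d4 : DifferentiableAt ℝ (fun y => fderiv ℝ φ y v) q :=
    (differentiableAt_fderiv hφ).clm_apply (differentiableAt_const v)
  rw [h1.fderiv_eq, fderiv_fun_add (d1.fun_mul d3) (d2.fun_mul d4), fderiv_fun_mul d1 d3,
    fderiv_fun_mul d2 d4]
  simp only [_root_.smul_apply, _root_.add_apply, smul_eq_mul]
  rw [fderiv_fderiv_apply hψ, fderiv_fderiv_apply hφ]
  ring

end calculus

section clm

variable {X : Type*} [NormedAddCommGroup X] [NormedSpace ℝ X]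
  {F : Type*} [NormedAddCommGroup F] [NormedSpace ℝ F] {Γ : X → F →L[ℝ] ℝ} {q : X}

theorem ev_diff {W : Type*} [NormedAddCommGroup W] [NormedSpace ℝ W] {f : X → W}
    (hf : ContDiffAt ℝ ∞ f q) : ∀ᶠ y in 𝓝 q, DifferentiableAt ℝ f y := by
  have h1 : ContDiffAt ℝ 1 f q := hf.of_le (by exact_mod_cast (le_trans one_le_two two_le_inf))
  filter_upwards [h1.eventually (by simp)] with y hy
  exact hy.differentiableAt (by norm_num)

theorem diff_fderiv {W : Type*} [NormedAddCommGroup W] [NormedSpace ℝ W] {f : X → W}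
    (hf : ContDiffAt ℝ ∞ f q) : DifferentiableAt ℝ (fderiv ℝ f) q :=
  ((hf.of_le two_le_inf).fderiv_right (m := 1) (by norm_num)).differentiableAt
    (by norm_num)

theorem comp_smooth (hΓ : ContDiffAt ℝ ∞ Γ q) (a : ℝ) (v : F) :
    ContDiffAt ℝ ∞ (fun p => a - Γ p v) q :=
  contDiffAt_const.sub (hΓ.clm_apply contDiffAt_const)

theorem comp_fderiv_at {p : X} (hΓ : DifferentiableAt ℝ Γ p) (a : ℝ) (v : F) (x : X) :
    fderiv ℝ (fun p => a - Γ p v) p x = -fderiv ℝ Γ p x v := by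
  have h1 : HasFDerivAt (fun p => a - Γ p v) (-((fderiv ℝ Γ p).flip v)) p := by
    have h2 := (hΓ.hasFDerivAt.clm_apply (hasFDerivAt_const v p)).const_sub a
    refine h2.congr_fderiv ?_
    ext y
    simp
  rw [h1.fderiv]
  simp

theorem comp_fderiv (hΓ : ContDiffAt ℝ ∞ Γ q) (a : ℝ) (v : F) (x : X) :
    fderiv ℝ (fun p => a - Γ p v) q x = -fderiv ℝ Γ q x v :=
  comp_fderiv_at (ev_diff hΓ).self_of_nhds a v x

theorem comp_fderiv2 (hΓ : ContDiffAt ℝ ∞ Γ q) (a : ℝ) (v : F) (x x' : X) :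
    fderiv ℝ (fderiv ℝ fun p => a - Γ p v) q x x' = -fderiv ℝ (fderiv ℝ Γ) q x x' v := by
  rw [← fderiv_fderiv_apply (comp_smooth hΓ a v)]
  have h1 : (fun y => fderiv ℝ (fun p => a - Γ p v) y x') =ᶠ[𝓝 q]
      fun y => -fderiv ℝ Γ y x' v := by
    filter_upwards [ev_diff hΓ] with y hy
    exact comp_fderiv_at hy a v x'
  have d1 := (diff_fderiv hΓ).hasFDerivAt
  have d2 : HasFDerivAt (fun y => fderiv ℝ Γ y x') ((fderiv ℝ (fderiv ℝ Γ) q).flip x') q := by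
    refine (d1.clm_apply (hasFDerivAt_const x' q)).congr_fderiv ?_
    ext y
    simp
  have d3 : HasFDerivAt (fun y => -fderiv ℝ Γ y x' v)
      (-(((fderiv ℝ (fderiv ℝ Γ) q).flip x').flip v)) q := by
    refine ((d2.clm_apply (hasFDerivAt_const v q)).neg).congr_fderiv ?_
    ext y
    simp
  rw [h1.fderiv_eq, d3.fderiv]
  simp

theorem second_symm (hΓ : ContDiffAt ℝ ∞ Γ q) (x x' : X) :
    fderiv ℝ (fderiv ℝ Γ) q x x' = fderiv ℝ (fderiv ℝ Γ) q x' x :=
  ((hΓ.of_le two_le_inf).isSymmSndFDerivAt (by simp)) x x'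

theorem second_apply (hΓ : ContDiffAt ℝ ∞ Γ q) (x x' : X) :
    fderiv ℝ (fun p => fderiv ℝ Γ p x') q x = fderiv ℝ (fderiv ℝ Γ) q x x' := by
  have d1 := (diff_fderiv hΓ).hasFDerivAt
  have d2 : HasFDerivAt (fun y => fderiv ℝ Γ y x') ((fderiv ℝ (fderiv ℝ Γ) q).flip x') q := by
    refine (d1.clm_apply (hasFDerivAt_const x' q)).congr_fderiv ?_
    ext y
    simp
  rw [d2.fderiv]
  simp

end clm

theorem bil_ext {V : Type*} [AddCommGroup V] [Module ℝ V] {ι : Type*} (b : Basis ι ℝ V)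
    (S : Bil V) (F : V → V → ℝ) (h1 : ∀ v v' w, F (v + v') w = F v w + F v' w)
    (h2 : ∀ (c : ℝ) v w, F (c • v) w = c • F v w) (h3 : ∀ v w w', F v (w + w') = F v w + F v w')
    (h4 : ∀ (c : ℝ) v w, F v (c • w) = c • F v w) (hb : ∀ i j, S (b i) (b j) = F (b i) (b j))
    (v w : V) : S v w = F v w := by
  have h5 : S = LinearMap.mk₂ ℝ F h1 h2 h3 h4 := LinearMap.ext_basis b b fun i j => hb i j
  rw [h5]
  rfl

section main

variable {E₁ : Type*} [NormedAddCommGroup E₁] [NormedSpace ℝ E₁] [FiniteDimensional ℝ E₁]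
  {h : Curv.Coeff E₁} {Γ : E₁ × ℝ → E₁ →L[ℝ] ℝ} {β : E₁ × ℝ → ℝ} {q : E₁ × ℝ}

/-- The coefficients of `h` as functions on the product. -/
abbrev cc' (h : Curv.Coeff E₁) : Fin (finrank ℝ E₁) → Fin (finrank ℝ E₁) → E₁ × ℝ → ℝ :=
  fun k l p => h p.1 k l

theorem conn_apply (h : Curv.Coeff E₁) (Γ : E₁ × ℝ → E₁ →L[ℝ] ℝ) (β : E₁ × ℝ → ℝ)
    (p : E₁ × ℝ) (i j : Fin (finrank ℝ (E₁ × ℝ))) : conn h Γ β p i j =
      mkB (finBasis ℝ E₁) (fun k l => cc' h k l p) (finBasis ℝ (E₁ × ℝ) i).1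
        (finBasis ℝ (E₁ × ℝ) j).1 +
      Real.exp (β p) ^ 2 * (((finBasis ℝ (E₁ × ℝ) i).2 - Γ p (finBasis ℝ (E₁ × ℝ) i).1) *
        ((finBasis ℝ (E₁ × ℝ) j).2 - Γ p (finBasis ℝ (E₁ × ℝ) j).1)) := by
  rw [mkB_apply]
  rfl

section smooth

variable (hh : ∀ i j, ContDiffAt ℝ ∞ (cc' h i j) q)
  (hΓ : ContDiffAt ℝ ∞ Γ q) (hβ : ContDiffAt ℝ ∞ β q)

include hh hΓ hβ

theorem conn_smooth (i j : Fin (finrank ℝ (E₁ × ℝ))) :
    ContDiffAt ℝ ∞ (fun p => conn h Γ β p i j) q := by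
  simp only [conn_apply]
  exact (form_contDiffAt _ hh _ _).add
    ((hβ.exp.pow 2).mul ((comp_smooth hΓ _ _).mul (comp_smooth hΓ _ _)))

theorem conn_D (h0 : Γ q = 0) (x v w : E₁ × ℝ) : fD (conn h Γ β) q x v w =
    mkD (finBasis ℝ E₁) (j1 (cc' h) q) x v.1 w.1 +
    Real.exp (β q) ^ 2 * (2 * fderiv ℝ β q x * (v.2 * w.2) - v.2 * fderiv ℝ Γ q x w.1 -
      w.2 * fderiv ℝ Γ q x v.1) := by
  refine bil_ext (finBasis ℝ (E₁ × ℝ)) (fD (conn h Γ β) q x) (fun v w =>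
    mkD (finBasis ℝ E₁) (j1 (cc' h) q) x v.1 w.1 +
    Real.exp (β q) ^ 2 * (2 * fderiv ℝ β q x * (v.2 * w.2) - v.2 * fderiv ℝ Γ q x w.1 -
      w.2 * fderiv ℝ Γ q x v.1)) ?_ ?_ ?_ ?_ ?_ v w
  · intro v v' w
    simp only [Prod.fst_add, Prod.snd_add, map_add, LinearMap.add_apply]
    ring
  · intro c v w
    simp only [Prod.smul_fst, Prod.smul_snd, map_smul, LinearMap.smul_apply, smul_eq_mul]
    ring
  · intro v w w'
    simp only [Prod.fst_add, Prod.snd_add, map_add, LinearMap.add_apply]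
    ring
  · intro c v w
    simp only [Prod.smul_fst, Prod.smul_snd, map_smul, LinearMap.smul_apply, smul_eq_mul]
    ring
  · intro i j
    rw [mkD_basis, j1_apply]
    simp only [conn_apply]
    have c1 := form_contDiffAt (finBasis ℝ E₁) hh (finBasis ℝ (E₁ × ℝ) i).1
      (finBasis ℝ (E₁ × ℝ) j).1
    have c2 := comp_smooth hΓ (finBasis ℝ (E₁ × ℝ) i).2 (finBasis ℝ (E₁ × ℝ) i).1
    have c3 := comp_smooth hΓ (finBasis ℝ (E₁ × ℝ) j).2 (finBasis ℝ (E₁ × ℝ) j).1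
    have c4 := c2.mul c3
    have d1 := (eventually_differentiableAt c1).self_of_nhds
    have d2 := (eventually_differentiableAt ((hβ.exp.pow 2).mul c4)).self_of_nhds
    rw [fderiv_fun_add d1 d2, _root_.add_apply, conf_fderiv hβ c4, form_fderiv _ hh,
      mul_fderiv c2 c3, comp_fderiv hΓ, comp_fderiv hΓ, h0]
    simp only [_root_.zero_apply, sub_zero]
    ring

theorem conn_D2 (h0 : Γ q = 0) (x x' v w : E₁ × ℝ) : fD2 (conn h Γ β) q x x' v w =
    mkD2 (finBasis ℝ E₁) (j2 (cc' h) q) x x' v.1 w.1 +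
    Real.exp (β q) ^ 2 * ((4 * fderiv ℝ β q x * fderiv ℝ β q x' +
      2 * fderiv ℝ (fderiv ℝ β) q x x') * (v.2 * w.2) -
      2 * fderiv ℝ β q x * (v.2 * fderiv ℝ Γ q x' w.1 + w.2 * fderiv ℝ Γ q x' v.1) -
      2 * fderiv ℝ β q x' * (v.2 * fderiv ℝ Γ q x w.1 + w.2 * fderiv ℝ Γ q x v.1) -
      v.2 * fderiv ℝ (fderiv ℝ Γ) q x x' w.1 - w.2 * fderiv ℝ (fderiv ℝ Γ) q x x' v.1 +
      fderiv ℝ Γ q x v.1 * fderiv ℝ Γ q x' w.1 + fderiv ℝ Γ q x' v.1 * fderiv ℝ Γ q x w.1) := by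
  refine bil_ext (finBasis ℝ (E₁ × ℝ)) (fD2 (conn h Γ β) q x x') (fun v w =>
    mkD2 (finBasis ℝ E₁) (j2 (cc' h) q) x x' v.1 w.1 +
    Real.exp (β q) ^ 2 * ((4 * fderiv ℝ β q x * fderiv ℝ β q x' +
      2 * fderiv ℝ (fderiv ℝ β) q x x') * (v.2 * w.2) -
      2 * fderiv ℝ β q x * (v.2 * fderiv ℝ Γ q x' w.1 + w.2 * fderiv ℝ Γ q x' v.1) -
      2 * fderiv ℝ β q x' * (v.2 * fderiv ℝ Γ q x w.1 + w.2 * fderiv ℝ Γ q x v.1) -
      v.2 * fderiv ℝ (fderiv ℝ Γ) q x x' w.1 - w.2 * fderiv ℝ (fderiv ℝ Γ) q x x' v.1 +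
      fderiv ℝ Γ q x v.1 * fderiv ℝ Γ q x' w.1 + fderiv ℝ Γ q x' v.1 * fderiv ℝ Γ q x w.1))
    ?_ ?_ ?_ ?_ ?_ v w
  · intro v v' w
    simp only [Prod.fst_add, Prod.snd_add, map_add, LinearMap.add_apply]
    ring
  · intro c v w
    simp only [Prod.smul_fst, Prod.smul_snd, map_smul, LinearMap.smul_apply, smul_eq_mul]
    ring
  · intro v w w'
    simp only [Prod.fst_add, Prod.snd_add, map_add, LinearMap.add_apply]
    ring
  · intro c v w
    simp only [Prod.smul_fst, Prod.smul_snd, map_smul, LinearMap.smul_apply, smul_eq_mul]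
    ring
  · intro i j
    rw [mkD2_basis, j2_apply]
    simp only [conn_apply]
    have c1 := form_contDiffAt (finBasis ℝ E₁) hh (finBasis ℝ (E₁ × ℝ) i).1
      (finBasis ℝ (E₁ × ℝ) j).1
    have c2 := comp_smooth hΓ (finBasis ℝ (E₁ × ℝ) i).2 (finBasis ℝ (E₁ × ℝ) i).1
    have c3 := comp_smooth hΓ (finBasis ℝ (E₁ × ℝ) j).2 (finBasis ℝ (E₁ × ℝ) j).1
    have c4 := c2.mul c3
    have e2 := (hβ.exp.pow 2).mul c4
    have h1 : (fderiv ℝ fun p => mkB (finBasis ℝ E₁) (fun k l => cc' h k l p)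
          (finBasis ℝ (E₁ × ℝ) i).1 (finBasis ℝ (E₁ × ℝ) j).1 +
        Real.exp (β p) ^ 2 * (((finBasis ℝ (E₁ × ℝ) i).2 - Γ p (finBasis ℝ (E₁ × ℝ) i).1) *
        ((finBasis ℝ (E₁ × ℝ) j).2 - Γ p (finBasis ℝ (E₁ × ℝ) j).1))) =ᶠ[𝓝 q]
        fun y => (fderiv ℝ fun p => mkB (finBasis ℝ E₁) (fun k l => cc' h k l p)
          (finBasis ℝ (E₁ × ℝ) i).1 (finBasis ℝ (E₁ × ℝ) j).1) y +
        (fderiv ℝ fun p => Real.exp (β p) ^ 2 *
          (((finBasis ℝ (E₁ × ℝ) i).2 - Γ p (finBasis ℝ (E₁ × ℝ) i).1) *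
        ((finBasis ℝ (E₁ × ℝ) j).2 - Γ p (finBasis ℝ (E₁ × ℝ) j).1))) y := by
      filter_upwards [eventually_differentiableAt c1, eventually_differentiableAt e2] with y h1 h2
      exact fderiv_fun_add h1 h2
    rw [h1.fderiv_eq, fderiv_fun_add (differentiableAt_fderiv c1) (differentiableAt_fderiv e2),
      _root_.add_apply, _root_.add_apply, conf_fderiv2 hβ c4, form_fderiv2 _ hh,
      mul_fderiv2 c2 c3, mul_fderiv c2 c3, mul_fderiv c2 c3, comp_fderiv hΓ, comp_fderiv hΓ,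
      comp_fderiv hΓ, comp_fderiv hΓ, comp_fderiv2 hΓ, comp_fderiv2 hΓ, h0]
    simp only [_root_.zero_apply, sub_zero]
    ring

end smooth

theorem conn_form (h0 : Γ q = 0) (v w : E₁ × ℝ) : fB (conn h Γ β) q v w =
    mkB (finBasis ℝ E₁) (fun k l => h q.1 k l) v.1 w.1 + Real.exp (β q) ^ 2 * (v.2 * w.2) := by
  refine bil_ext (finBasis ℝ (E₁ × ℝ)) (fB (conn h Γ β) q) (fun v w =>
    mkB (finBasis ℝ E₁) (fun k l => h q.1 k l) v.1 w.1 + Real.exp (β q) ^ 2 * (v.2 * w.2))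
    ?_ ?_ ?_ ?_ ?_ v w
  · intro v v' w
    simp only [Prod.fst_add, Prod.snd_add, map_add, LinearMap.add_apply]
    ring
  · intro c v w
    simp only [Prod.smul_fst, Prod.smul_snd, map_smul, LinearMap.smul_apply, smul_eq_mul]
    ring
  · intro v w w'
    simp only [Prod.fst_add, Prod.snd_add, map_add, LinearMap.add_apply]
    ring
  · intro c v w
    simp only [Prod.smul_fst, Prod.smul_snd, map_smul, LinearMap.smul_apply, smul_eq_mul]
    ring
  · intro i j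
    rw [mkB_basis, conn_apply, h0]
    simp only [_root_.zero_apply, sub_zero]

/-- The basis of the line. -/
abbrev e₂ : Basis Unit ℝ ℝ := Basis.singleton Unit ℝ

/-- The form `c v w` on the line. -/
abbrev Kc (c : ℝ) : Bil ℝ := c • LinearMap.mul ℝ ℝ

theorem Kc_apply (c v w : ℝ) : Kc c v w = c * (v * w) := rfl

theorem gram_Kc (c : ℝ) : gram e₂ (Kc c) = Matrix.diagonal fun _ => c := by
  ext i j
  simp [gram, Kc]

theorem tr_Kc {c : ℝ} (hc : c ≠ 0) (T : ℝ → ℝ → ℝ) : tr e₂ (Kc c) T = c⁻¹ * T 1 1 := by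
  have h1 : (gram e₂ (Kc c))⁻¹ = Matrix.diagonal fun _ => c⁻¹ := by
    apply Matrix.inv_eq_right_inv
    rw [gram_Kc, Matrix.diagonal_mul_diagonal]
    ext i j
    simp [hc, Matrix.diagonal_apply, Matrix.one_apply]
  unfold tr
  rw [h1]
  simp

theorem nondeg_Kc {c : ℝ} (hc : c ≠ 0) : Nondeg e₂ (Kc c) := by
  refine ⟨fun u v => by rw [Kc_apply, Kc_apply, mul_comm u v], ?_⟩
  rw [gram_Kc, Matrix.det_diagonal]
  simp [hc]

theorem posDef_Kc {c : ℝ} (hc : 0 < c) : (gram e₂ (Kc c)).PosDef := by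
  rw [gram_Kc]
  exact Matrix.PosDef.diagonal fun _ => hc

/-- The first order off-diagonal term. -/
def mm (Γ : E₁ × ℝ → E₁ →L[ℝ] ℝ) (β : E₁ × ℝ → ℝ) (q : E₁ × ℝ) :
    E₁ →ₗ[ℝ] E₁ →ₗ[ℝ] ℝ →ₗ[ℝ] ℝ :=
  LinearMap.mk₂ ℝ (fun x u => (-(Real.exp (β q) ^ 2) * fderiv ℝ Γ q (x, 0) u) •
      (LinearMap.id : ℝ →ₗ[ℝ] ℝ))
    (fun x x' u => by
      have h1 : ((x + x', 0) : E₁ × ℝ) = (x, 0) + (x', 0) := by simp
      rw [h1, map_add, _root_.add_apply, mul_add, add_smul])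
    (fun c x u => by
      have h1 : ((c • x, 0) : E₁ × ℝ) = c • (x, 0) := by simp
      rw [h1, map_smul, _root_.smul_apply, smul_eq_mul, smul_smul]
      congr 1
      ring)
    (fun x u u' => by rw [map_add, mul_add, add_smul])
    (fun c x u => by
      rw [map_smul, smul_eq_mul, smul_smul]
      congr 1
      ring)

theorem mm_apply (x u : E₁) (v : ℝ) :
    mm Γ β q x u v = -(Real.exp (β q) ^ 2) * fderiv ℝ Γ q (x, 0) u * v := rfl

/-- The second order off-diagonal term, the covector. -/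
def nc (Γ : E₁ × ℝ → E₁ →L[ℝ] ℝ) (β : E₁ × ℝ → ℝ) (q x x' : E₁ × ℝ) : E₁ →L[ℝ] ℝ :=
  (-(Real.exp (β q) ^ 2)) • (fderiv ℝ (fderiv ℝ Γ) q x x' +
    (2 * fderiv ℝ β q x) • fderiv ℝ Γ q x' + (2 * fderiv ℝ β q x') • fderiv ℝ Γ q x)

theorem nc_apply (x x' : E₁ × ℝ) (u : E₁) : nc Γ β q x x' u =
    -(Real.exp (β q) ^ 2) * (fderiv ℝ (fderiv ℝ Γ) q x x' u +
      2 * fderiv ℝ β q x * fderiv ℝ Γ q x' u + 2 * fderiv ℝ β q x' * fderiv ℝ Γ q x u) := rfl

/-- The second order off-diagonal term. -/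
def nn (Γ : E₁ × ℝ → E₁ →L[ℝ] ℝ) (β : E₁ × ℝ → ℝ) (q : E₁ × ℝ) :
    (E₁ × ℝ) →ₗ[ℝ] (E₁ × ℝ) →ₗ[ℝ] E₁ →ₗ[ℝ] ℝ →ₗ[ℝ] ℝ :=
  LinearMap.mk₂ ℝ (fun x x' => (LinearMap.mul ℝ ℝ).comp (nc Γ β q x x' : E₁ →ₗ[ℝ] ℝ))
    (fun x y x' => by
      ext u
      simp only [LinearMap.comp_apply, LinearMap.add_apply, LinearMap.mul_apply',
        ContinuousLinearMap.coe_coe, nc_apply, map_add, _root_.add_apply]
      ring)
    (fun c x x' => by
      ext u
      simp only [LinearMap.comp_apply, LinearMap.smul_apply, LinearMap.mul_apply',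
        ContinuousLinearMap.coe_coe, nc_apply, map_smul, _root_.smul_apply, smul_eq_mul]
      ring)
    (fun x x' y => by
      ext u
      simp only [LinearMap.comp_apply, LinearMap.add_apply, LinearMap.mul_apply',
        ContinuousLinearMap.coe_coe, nc_apply, map_add, _root_.add_apply]
      ring)
    (fun c x x' => by
      ext u
      simp only [LinearMap.comp_apply, LinearMap.smul_apply, LinearMap.mul_apply',
        ContinuousLinearMap.coe_coe, nc_apply, map_smul, _root_.smul_apply, smul_eq_mul]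
      ring)

theorem nn_apply (x x' : E₁ × ℝ) (u : E₁) (v : ℝ) : nn Γ β q x x' u v =
    -(Real.exp (β q) ^ 2) * (fderiv ℝ (fderiv ℝ Γ) q x x' u +
      2 * fderiv ℝ β q x * fderiv ℝ Γ q x' u + 2 * fderiv ℝ β q x' * fderiv ℝ Γ q x u) * v := rfl

end main

end J3

variable {E₁ : Type*} [NormedAddCommGroup E₁] [NormedSpace ℝ E₁] [FiniteDimensional ℝ E₁]
  {h : Curv.Coeff E₁} {Γ : E₁ × ℝ → E₁ →L[ℝ] ℝ} {β : E₁ × ℝ → ℝ} {q : E₁ × ℝ}

open J3 Pool.Agent.Lib.MP_df705a_gt.Twist.Alg in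
/-- At a point where the connection is in normal form. -/
theorem scal_conn_le (hD : CDat h Γ β q) (hN : NF Γ q) :
    Curv.scal (conn h Γ β) q ≤ Curv.scal (conn h 0 β) q - 2 * trG h Γ q := by
  have hhq := hD.h_pos.self_of_nhds
  have hh : ∀ i j, ContDiffAt ℝ ∞ (cc' h i j) q := fun i j =>
    ContDiffAt.comp q (hD.h_smooth i j) contDiffAt_fst
  have hsy0 : ∀ᶠ x in 𝓝 q.1, ∀ i j, h x i j = h x j i := by
    filter_upwards [hD.h_pos] with y hy i j
    have := hy.isHermitian.apply j i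
    simpa using this
  have hsy : ∀ᶠ p in 𝓝 q, ∀ i j, cc' h i j p = cc' h j i p :=
    continuousAt_fst.eventually hsy0
  have hΓ := hD.Γ_smooth
  have hβ := hD.β_smooth
  have h0Γ : ContDiffAt ℝ ∞ (0 : E₁ × ℝ → E₁ →L[ℝ] ℝ) q := contDiffAt_const
  have hg1 : gram (finBasis ℝ E₁) (mkB (finBasis ℝ E₁) fun i j => h q.1 i j) = h q.1 :=
    gram_mkB _ _
  have nh : Nondeg (finBasis ℝ E₁) (mkB (finBasis ℝ E₁) fun i j => h q.1 i j) :=
    ⟨mkB_symm _ fun i j => hsy.self_of_nhds i j, by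
      rw [hg1]
      exact (Matrix.isUnit_iff_isUnit_det _).mp hhq.isUnit⟩
  have hc : 0 < Real.exp (β q) ^ 2 := by positivity
  have f0 : ∀ x, fderiv ℝ (0 : E₁ × ℝ → E₁ →L[ℝ] ℝ) q x = 0 := fun x => by simp
  have f00 : ∀ x x', fderiv ℝ (fderiv ℝ (0 : E₁ × ℝ → E₁ →L[ℝ] ℝ)) q x x' = 0 := fun x x' => by
    have : fderiv ℝ (0 : E₁ × ℝ → E₁ →L[ℝ] ℝ) = 0 := by
      ext1 y
      simp
    rw [this]
    simp
  have hx : ∀ x : E₁ × ℝ, fderiv ℝ Γ q x = fderiv ℝ Γ q (x.1, 0) := by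
    intro x
    have h1 : x = (x.1, 0) + x.2 • ((0 : E₁), (1 : ℝ)) := by
      ext <;> simp
    conv_lhs => rw [h1, map_add, map_smul, hN.dy, smul_zero, add_zero]
  have hfB : fB (conn h Γ β) q = fB (conn h 0 β) q := by
    refine LinearMap.ext fun v => LinearMap.ext fun w => ?_
    rw [conn_form hN.zero, conn_form rfl]
  have T : Off (finBasis ℝ E₁) e₂ (mkB (finBasis ℝ E₁) fun i j => h q.1 i j)
      (Kc (Real.exp (β q) ^ 2)) (fB (conn h 0 β) q) (fD (conn h 0 β) q) (fD (conn h Γ β) q)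
      (fD2 (conn h 0 β) q) (fD2 (conn h Γ β) q) (mm Γ β q) (nn Γ β q) :=
    { hH := nh
      hK := nondeg_Kc hc.ne'
      Hp := by rw [hg1]; exact hhq
      Kp := posDef_Kc hc
      hg := fun u v => by rw [conn_form rfl, Kc_apply]
      d12 := fun u v w => by
        rw [conn_D hh h0Γ hβ rfl, f0]
        simp
      d21 := fun u v w => by
        rw [conn_D hh h0Γ hβ rfl, f0]
        simp
      d2_12 := fun u u' v w => by
        rw [conn_D2 hh h0Γ hβ rfl, f0, f0, f00]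
        simp
      d2_21 := fun u u' v w => by
        rw [conn_D2 hh h0Γ hβ rfl, f0, f0, f00]
        simp
      sD := fun u v w => by
        rw [conn_D hh h0Γ hβ rfl, conn_D hh h0Γ hβ rfl,
          mkD_symm _ (j1_symm hsy)]
        ring
      sD2 := fun u u' v w => by
        rw [conn_D2 hh h0Γ hβ rfl, conn_D2 hh h0Γ hβ rfl,
          mkD2_symm _ (j2_symm hsy)]
        ring
      s2D2 := fun u u' v w => by
        rw [conn_D2 hh h0Γ hβ rfl, conn_D2 hh h0Γ hβ rfl, f00, f00,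
          fderiv_fderiv_symm hβ u u', mkD2_apply, mkD2_apply]
        simp only [j2_apply]
        have h1 : ∀ i j, fderiv ℝ (fderiv ℝ (cc' h i j)) q u u' =
            fderiv ℝ (fderiv ℝ (cc' h i j)) q u' u := fun i j => fderiv_fderiv_symm (hh i j) u u'
        simp only [h1]
        ring
      anti := fun x u v => by
        rw [mm_apply, mm_apply, hN.anti x u]
        ring
      sn := fun x x' u v => by
        rw [nn_apply, nn_apply, second_symm hΓ x x']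
        ring
      hD := fun x u v => by
        rw [conn_D hh h0Γ hβ rfl, conn_D hh hΓ hβ hN.zero, f0, mm_apply, mm_apply, hx x]
        simp only [_root_.zero_apply]
        ring
      hD2 := fun x x' u v => by
        rw [conn_D2 hh h0Γ hβ rfl, conn_D2 hh hΓ hβ hN.zero, f0, f0, f00, nn_apply, nn_apply]
        unfold cop
        rw [tr_Kc hc.ne', tr_Kc hc.ne', mm_apply, mm_apply, mm_apply, mm_apply, ← hx x,
          ← hx x']
        simp only [_root_.zero_apply]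
        have h3 : (Real.exp (β q) ^ 2)⁻¹ * (Real.exp (β q) ^ 2) = 1 := inv_mul_cancel₀ hc.ne'
        generalize Real.exp (β q) ^ 2 = c at *
        linear_combination (-c * fderiv ℝ Γ q x u.1 * fderiv ℝ Γ q x' v.1 -
          c * fderiv ℝ Γ q x' u.1 * fderiv ℝ Γ q x v.1) * h3 }
  -- the scalar curvatures in the product basis
  have nprod : Nondeg ((finBasis ℝ E₁).prod e₂) (fB (conn h 0 β) q) :=
    nondeg_prod T.hH T.hK T.hg
  have nfin : Nondeg (finBasis ℝ (E₁ × ℝ)) (fB (conn h 0 β) q) := by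
    refine ⟨nprod.symm, ?_⟩
    have h1 := (LinearMap.BilinForm.nondegenerate_iff_det_ne_zero
      (B := fB (conn h 0 β) q) ((finBasis ℝ E₁).prod e₂)).mpr ?_
    · have h2 := (LinearMap.BilinForm.nondegenerate_iff_det_ne_zero
        (B := fB (conn h 0 β) q) (finBasis ℝ (E₁ × ℝ))).mp h1
      have h3 : gram (finBasis ℝ (E₁ × ℝ)) (fB (conn h 0 β) q) =
          LinearMap.BilinForm.toMatrix (finBasis ℝ (E₁ × ℝ)) (fB (conn h 0 β) q) := by
        ext i j
        rw [LinearMap.BilinForm.toMatrix_apply]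
        rfl
      rw [h3]
      exact isUnit_iff_ne_zero.mpr h2
    · have h3 : LinearMap.BilinForm.toMatrix ((finBasis ℝ E₁).prod e₂)
          (fB (conn h 0 β) q) = gram ((finBasis ℝ E₁).prod e₂) (fB (conn h 0 β) q) := by
        ext i j
        rw [LinearMap.BilinForm.toMatrix_apply]
        rfl
      rw [h3]
      exact isUnit_iff_ne_zero.mp nprod.det
  rw [scal_link (conn_smooth hh hΓ hβ), scal_link (conn_smooth hh h0Γ hβ), hfB,
    scal_basis _ _ nfin nprod, scal_basis _ _ nfin nprod, T.scal_eq]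
  have h1 := quad_nonneg T.hH T.hK T.Hp T.Kp (mm Γ β q)
  have h2 : tr (finBasis ℝ E₁) (mkB (finBasis ℝ E₁) fun i j => h q.1 i j)
      (fun x u => tr e₂ (Kc (Real.exp (β q) ^ 2)) fun y v => nn Γ β q (x, 0) (0, y) u v) =
      -trG h Γ q := by
    have h3 : ∀ x u : E₁, tr e₂ (Kc (Real.exp (β q) ^ 2))
        (fun y v => nn Γ β q (x, 0) (0, y) u v) =
        -(fderiv ℝ (fderiv ℝ Γ) q (x, 0) (0, 1) u) -
          2 * fderiv ℝ β q (0, 1) * fderiv ℝ Γ q (x, 0) u := by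
      intro x u
      rw [tr_Kc hc.ne', nn_apply, hN.dy]
      simp only [_root_.zero_apply]
      field_simp
      ring
    rw [tr_congr h3, tr_sub, tr_neg, tr_const_mul]
    have h4 : tr (finBasis ℝ E₁) (mkB (finBasis ℝ E₁) fun i j => h q.1 i j)
        (fun x u => fderiv ℝ Γ q (x, 0) u) = 0 := by
      have h5 := tr_flip nh fun x u => fderiv ℝ Γ q (x, 0) u
      have h6 : tr (finBasis ℝ E₁) (mkB (finBasis ℝ E₁) fun i j => h q.1 i j)
          (fun x u => fderiv ℝ Γ q (u, 0) x) =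
          -tr (finBasis ℝ E₁) (mkB (finBasis ℝ E₁) fun i j => h q.1 i j)
          (fun x u => fderiv ℝ Γ q (x, 0) u) := by
        rw [← tr_neg]
        exact tr_congr fun x u => hN.anti u x
      linarith
    rw [h4]
    unfold trG tr
    rw [hg1]
    simp only [second_apply hΓ]
    ring
  rw [h2]
  linarith

end Pool.Agent.Lib.MP_df705a_gt.Circ
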