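import Pool.Agent.Lib.MP_df705a_gt.Mg.G007
import Pool.Agent.Lib.MP_df705a_gt.Mg.G056

/-!
# TASK G2: the representation `g = ∑ c_kl df_k df_l` in a chart
-/

open scoped Manifold ContDiff Topology
open Set Bundle Module Filter

noncomputable section

namespace Pool.Agent.Lib.MP_df705a_gt.Circ

open Pool.Agent.Lib.MP_df705a_gt.Twist Pool.Agent.Lib.MP_df705a_gt.Perm
open Pool.Agent.Lib.MP_df705a_gt.Sub (mB)

variable {E : Type*} [NormedAddCommGroup E] [NormedSpace ℝ E] [FiniteDimensional ℝ E]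
  {M : Type*} [TopologicalSpace M] [ChartedSpace E M] [IsManifold 𝓘(ℝ, E) ∞ M]

namespace G2

theorem mB_coeff (g : ContMDiffRiemannianMetric 𝓘(ℝ, E) ∞ E
      (fun x : M => TangentSpace 𝓘(ℝ, E) x)) (z : M) (y u v : E) :
    mB (coeff g z y) u v = mform 𝓘(ℝ, E) g z y u v := by
  conv_rhs => rw [← (finBasis ℝ E).sum_repr u, ← (finBasis ℝ E).sum_repr v, bilin_sum]
  unfold mB
  refine Finset.sum_congr rfl fun m _ => Finset.sum_congr rfl fun p _ => ?_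
  have h2 : coeff g z y m p = mform 𝓘(ℝ, E) g z y (finBasis ℝ E m) (finBasis ℝ E p) := rfl
  rw [h2]
  exact mul_comm _ _

theorem fderiv_rd {κ : Type} {f : κ → M → ℝ} (hf : ∀ k, Sm E (f k)) (k : κ) (z : M) {y : E}
    (hy : y ∈ (extChartAt 𝓘(ℝ, E) z).target) (u : E) :
    fderiv ℝ (rd E z (f k)) y u = dfun (E := E) f k ((extChartAt 𝓘(ℝ, E) z).symm y)
      ((mfderiv 𝓘(ℝ, E) 𝓘(ℝ, E) (extChartAt 𝓘(ℝ, E) z).symm y : E →L[ℝ] E) u) := by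
  have h1 : MDifferentiableAt 𝓘(ℝ, E) 𝓘(ℝ, ℝ) (f k) ((extChartAt 𝓘(ℝ, E) z).symm y) :=
    (hf k).mdifferentiable (by simp) _
  have h2 := mfderiv_comp (I := 𝓘(ℝ, E)) (I' := 𝓘(ℝ, E)) (I'' := 𝓘(ℝ, ℝ)) y h1
    (symm_mdiff 𝓘(ℝ, E) z hy)
  have h3 : mfderiv 𝓘(ℝ, E) 𝓘(ℝ, ℝ) (f k ∘ (extChartAt 𝓘(ℝ, E) z).symm) y =
    fderiv ℝ (rd E z (f k)) y := mfderiv_eq_fderiv
  rw [← h3, h2]
  rfl

end G2

theorem data_chart (g : ContMDiffRiemannianMetric 𝓘(ℝ, E) ∞ E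
      (fun x : M => TangentSpace 𝓘(ℝ, E) x)) {κ : Type} [Fintype κ] {f : κ → M → ℝ}
    {c : κ → κ → M → ℝ} (hf : ∀ k, Sm E (f k))
    (hdata : ∀ (x : M) (v w : E), ∑ k, ∑ l, c k l x * (dfun f k x v * dfun f l x w) =
        g.inner x v w) (z : M) {y : E} (hy : y ∈ (extChartAt 𝓘(ℝ, E) z).target) (u v : E) :
    mB (coeff g z y) u v = ∑ k, ∑ l, rd E z (c k l) y *
      (fderiv ℝ (rd E z (f k)) y u * fderiv ℝ (rd E z (f l)) y v) := by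
  rw [G2.mB_coeff, mform_apply]
  simp only [G2.fderiv_rd hf _ z hy]
  exact (hdata _ _ _).symm

end Pool.Agent.Lib.MP_df705a_gt.Circ
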