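import Pool.Agent.Lib.MP_df705a_gt.Circ.FibredDefs
import Pool.Agent.Lib.MP_df705a_gt.Circ.SubChart
import Pool.Agent.Lib.MP_df705a_gt.Twist.StmtDefs

/-!
# TASK N2b: a Riemannian submersion in adapted coordinates
-/

open scoped Manifold ContDiff Topology
open Set Bundle Module Filter

noncomputable section

namespace Pool.Agent.Lib.MP_df705a_gt.Circ

open Pool.Agent.Lib.MP_df705a_gt.Twist Pool.Agent.Lib.MP_df705a_gt.Perm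

variable {E₁ : Type*} [NormedAddCommGroup E₁] [NormedSpace ℝ E₁] [FiniteDimensional ℝ E₁]
  {B : Type*} [TopologicalSpace B] [ChartedSpace E₁ B] [IsManifold 𝓘(ℝ, E₁) ∞ B]
  {E : Type*} [NormedAddCommGroup E] [NormedSpace ℝ E] [FiniteDimensional ℝ E]
  {M : Type*} [TopologicalSpace M] [ChartedSpace E M] [IsManifold 𝓘(ℝ, E) ∞ M]

namespace FC

omit [FiniteDimensional ℝ E₁] in
/-- Completing the square. -/
theorem square (S : (E₁ × ℝ) →L[ℝ] (E₁ × ℝ) →L[ℝ] ℝ) (hs : ∀ v w, S v w = S w v)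
    (hG : S (0, 1) (0, 1) ≠ 0) (Γ : E₁ →L[ℝ] ℝ)
    (hΓ : ∀ u, Γ u = -(S (0, 1) (0, 1))⁻¹ * S (0, 1) (u, 0)) (e e' : E₁ × ℝ) :
    S e e' = S (e.1, Γ e.1) (e'.1, Γ e'.1) +
      S (0, 1) (0, 1) * ((e.2 - Γ e.1) * (e'.2 - Γ e'.1)) := by
  have hx : ∀ u : E₁, S (0, 1) (u, Γ u) = 0 := by
    intro u
    have h1 : (u, Γ u) = (u, (0 : ℝ)) + (Γ u) • ((0 : E₁), (1 : ℝ)) := by
      ext <;> simp
    rw [h1, map_add, map_smul, hΓ, smul_eq_mul]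
    field_simp
    ring
  have hd : ∀ e : E₁ × ℝ, e = (e.1, Γ e.1) + (e.2 - Γ e.1) • ((0 : E₁), (1 : ℝ)) := by
    intro e
    ext <;> simp
  have h2 : S e e' = S ((e.1, Γ e.1) + (e.2 - Γ e.1) • ((0 : E₁), (1 : ℝ)))
      ((e'.1, Γ e'.1) + (e'.2 - Γ e'.1) • ((0 : E₁), (1 : ℝ))) := by
    rw [← hd e, ← hd e']
  rw [h2]
  simp only [map_add, map_smul, add_apply, smul_apply,
    smul_eq_mul]
  rw [hx, hs (e.1, Γ e.1) (0, 1), hx]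
  ring

end FC

/-- A Riemannian submersion in adapted coordinates. -/
theorem cf_eq_conn (g : ContMDiffRiemannianMetric 𝓘(ℝ, E) ∞ E
      (fun x : M => TangentSpace 𝓘(ℝ, E) x))
    (gB : ContMDiffRiemannianMetric 𝓘(ℝ, E₁) ∞ E₁ (fun x : B => TangentSpace 𝓘(ℝ, E₁) x))
    {pr : M → B} (hpr : Submersion E E₁ pr) (hH : ∀ p, HorAt g gB pr p 1)
    {σ : E₁ × ℝ → M} {q : E₁ × ℝ} {z : B} (hA : AC E pr σ q z) :
    ∀ᶠ y in 𝓝 q, cf g σ y = conn (coeff gB z) (gam g σ) (bet g σ) y := by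
  filter_upwards [hA.para, hA.src.eventually_nhds, hA.fst.eventually_nhds] with y hP hsrc hfst
  have hy1 : y.1 ∈ (extChartAt 𝓘(ℝ, E₁) z).target := by
    rw [← hfst.self_of_nhds]
    exact (extChartAt 𝓘(ℝ, E₁) z).map_source hsrc.self_of_nhds
  -- the projection in the parametrization
  have hpσ : (pr ∘ σ) =ᶠ[𝓝 y] (extChartAt 𝓘(ℝ, E₁) z).symm ∘ Prod.fst := by
    filter_upwards [hsrc, hfst] with y' h1 h2
    simp only [Function.comp_apply]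
    rw [← h2, (extChartAt 𝓘(ℝ, E₁) z).left_inv h1]
  have hpy : pr (σ y) = (extChartAt 𝓘(ℝ, E₁) z).symm y.1 := hpσ.self_of_nhds
  have hσd : MDifferentiableAt 𝓘(ℝ, E₁ × ℝ) 𝓘(ℝ, E) σ y :=
    hP.smooth.mdifferentiableAt (by simp)
  have hprd : MDifferentiableAt 𝓘(ℝ, E) 𝓘(ℝ, E₁) pr (σ y) :=
    (hpr.1 (σ y)).mdifferentiableAt (by simp)
  have hfd : MDifferentiableAt 𝓘(ℝ, E₁ × ℝ) 𝓘(ℝ, E₁) (Prod.fst : E₁ × ℝ → E₁) y :=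
    (differentiableAt_fst (𝕜 := ℝ)).mdifferentiableAt
  have hsd := symm_mdiff 𝓘(ℝ, E₁) z hy1
  have hfm : mfderiv 𝓘(ℝ, E₁ × ℝ) 𝓘(ℝ, E₁) (Prod.fst : E₁ × ℝ → E₁) y =
      ContinuousLinearMap.fst ℝ E₁ ℝ := by
    rw [mfderiv_eq_fderiv]
    exact fderiv_fst
  have hD : ∀ w : E₁ × ℝ, mfderiv 𝓘(ℝ, E) 𝓘(ℝ, E₁) pr (σ y)
      (mfderiv 𝓘(ℝ, E₁ × ℝ) 𝓘(ℝ, E) σ y w) =
      mfderiv 𝓘(ℝ, E₁) 𝓘(ℝ, E₁) (extChartAt 𝓘(ℝ, E₁) z).symm y.1 w.1 := by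
    intro w
    have h1 := mfderiv_comp (I := 𝓘(ℝ, E₁ × ℝ)) (I' := 𝓘(ℝ, E)) (I'' := 𝓘(ℝ, E₁)) y hprd hσd
    have h2 := mfderiv_comp (I := 𝓘(ℝ, E₁ × ℝ)) (I' := 𝓘(ℝ, E₁)) (I'' := 𝓘(ℝ, E₁)) y hsd hfd
    have h3 : mfderiv 𝓘(ℝ, E₁ × ℝ) 𝓘(ℝ, E₁) (pr ∘ σ) y =
        mfderiv 𝓘(ℝ, E₁ × ℝ) 𝓘(ℝ, E₁) ((extChartAt 𝓘(ℝ, E₁) z).symm ∘ Prod.fst) y :=
      hpσ.mfderiv_eq
    have h4 : mfderiv 𝓘(ℝ, E₁ × ℝ) 𝓘(ℝ, E₁) (pr ∘ σ) y w =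
        mfderiv 𝓘(ℝ, E₁ × ℝ) 𝓘(ℝ, E₁) ((extChartAt 𝓘(ℝ, E₁) z).symm ∘ Prod.fst) y w := by
      exact DFunLike.congr_fun (show (mfderiv 𝓘(ℝ, E₁ × ℝ) 𝓘(ℝ, E₁) (pr ∘ σ) y :
        (E₁ × ℝ) →L[ℝ] E₁) = mfderiv 𝓘(ℝ, E₁ × ℝ) 𝓘(ℝ, E₁)
          ((extChartAt 𝓘(ℝ, E₁) z).symm ∘ Prod.fst) y from h3) w
    rw [h1, h2, hfm] at h4
    exact h4
  have hinj := symm_injective 𝓘(ℝ, E₁) z hy1
  -- the form in the parametrization
  set S := gσ g σ y with hS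
  have hsymm : ∀ v w, S v w = S w v := fun v w => g.symm _ _ _
  have hGpos : 0 < S (0, 1) (0, 1) := by
    rw [hS, gσ_apply]
    apply g.pos
    intro h0
    have h1 : ((0 : E₁), (1 : ℝ)) = 0 :=
      hP.bij.1 (h0.trans (map_zero (mfderiv 𝓘(ℝ, E₁ × ℝ) 𝓘(ℝ, E) σ y)).symm)
    have := congrArg Prod.snd h1
    simp at this
  have hΓ : ∀ u, gam g σ y u = -(S (0, 1) (0, 1))⁻¹ * S (0, 1) (u, 0) := by
    intro u
    simp only [gam, smul_apply, ContinuousLinearMap.comp_apply,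
      ContinuousLinearMap.inl_apply, smul_eq_mul, ← hS]
  -- horizontal vectors
  have hhor : ∀ u : E₁, Horizontal (E₁ := E₁) g pr (σ y)
      (mfderiv 𝓘(ℝ, E₁ × ℝ) 𝓘(ℝ, E) σ y (u, gam g σ y u)) := by
    intro u w hw
    obtain ⟨w', rfl⟩ : ∃ w' : E₁ × ℝ, mfderiv 𝓘(ℝ, E₁ × ℝ) 𝓘(ℝ, E) σ y w' = w := hP.bij.2 w
    rw [hD w'] at hw
    have h1 : w'.1 = 0 := hinj (hw.trans
      (map_zero (mfderiv 𝓘(ℝ, E₁) 𝓘(ℝ, E₁) (extChartAt 𝓘(ℝ, E₁) z).symm y.1)).symm)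
    have h2 : w' = w'.2 • ((0 : E₁), (1 : ℝ)) := by
      refine Prod.ext ?_ ?_
      · simp [h1]
      · simp
    change S (u, gam g σ y u) w' = 0
    rw [h2, map_smul, smul_eq_mul]
    have h3 : (u, gam g σ y u) = (u, (0 : ℝ)) + (gam g σ y u) • ((0 : E₁), (1 : ℝ)) := by
      ext <;> simp
    have h4 : S (u, gam g σ y u) (0, 1) = 0 := by
      rw [hsymm, h3, map_add, map_smul, smul_eq_mul, hΓ]
      field_simp
      ring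
    rw [h4, mul_zero]
  have hpull : ∀ u v : E₁, S (u, gam g σ y u) (v, gam g σ y v) =
      Sub.mB (coeff gB z y.1) u v := by
    intro u v
    have h1 := hH (σ y) _ _ (hhor u) (hhor v)
    rw [one_mul, hD, hD] at h1
    have h2 : S (u, gam g σ y u) (v, gam g σ y v) = mform 𝓘(ℝ, E₁) gB z y.1 u v := by
      rw [hS, gσ_apply, ← h1, mform_apply, hpy]
    rw [h2]
    unfold Sub.mB
    have h3 := bilin_sum (finBasis ℝ E₁) (mform 𝓘(ℝ, E₁) gB z y.1)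
      (fun i => (finBasis ℝ E₁).repr u i) (fun i => (finBasis ℝ E₁).repr v i)
    rw [(finBasis ℝ E₁).sum_repr, (finBasis ℝ E₁).sum_repr] at h3
    rw [h3]
    refine Finset.sum_congr rfl fun i _ => Finset.sum_congr rfl fun j _ => ?_
    have h4 : mform 𝓘(ℝ, E₁) gB z y.1 (finBasis ℝ E₁ i) (finBasis ℝ E₁ j) =
        coeff gB z y.1 i j := rfl
    rw [h4]
    ring
  ext i j
  have h5 : cf g σ y i j = S (finBasis ℝ (E₁ × ℝ) i) (finBasis ℝ (E₁ × ℝ) j) := rfl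
  have h6 : Real.exp (bet g σ y) ^ 2 = S (0, 1) (0, 1) := by
    unfold bet
    rw [← hS, ← Real.exp_nat_mul]
    have : ((2 : ℕ) : ℝ) * (1 / 2 * Real.log (S (0, 1) (0, 1))) = Real.log (S (0, 1) (0, 1)) := by
      push_cast
      ring
    rw [this, Real.exp_log hGpos]
  rw [h5, FC.square S hsymm hGpos.ne' (gam g σ y) hΓ, hpull]
  unfold conn
  rw [h6]

end Pool.Agent.Lib.MP_df705a_gt.Circ
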