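import Pool.Agent.Lib.MP_df705a_gt.Mg.G054

/-!
# A metric in adapted coordinates: definitions
-/

open scoped Manifold ContDiff Topology
open Set Bundle Module Filter

noncomputable section

namespace Pool.Agent.Lib.MP_df705a_gt.Circ

open Pool.Agent.Lib.MP_df705a_gt.Twist Pool.Agent.Lib.MP_df705a_gt.Perm

variable {E₁ : Type*} [NormedAddCommGroup E₁] [NormedSpace ℝ E₁] [FiniteDimensional ℝ E₁]
  {B : Type*} [TopologicalSpace B] [ChartedSpace E₁ B] [IsManifold 𝓘(ℝ, E₁) ∞ B]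
  {E : Type*} [NormedAddCommGroup E] [NormedSpace ℝ E] [FiniteDimensional ℝ E]
  {M : Type*} [TopologicalSpace M] [ChartedSpace E M] [IsManifold 𝓘(ℝ, E) ∞ M]

/-- The form `g` in the parametrization `σ`. -/
def gσ (g : ContMDiffRiemannianMetric 𝓘(ℝ, E) ∞ E (fun x : M => TangentSpace 𝓘(ℝ, E) x))
    (σ : E₁ × ℝ → M) (y : E₁ × ℝ) : (E₁ × ℝ) →L[ℝ] (E₁ × ℝ) →L[ℝ] ℝ :=
  let T : (E₁ × ℝ) →L[ℝ] E := mfderiv 𝓘(ℝ, E₁ × ℝ) 𝓘(ℝ, E) σ y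
  let G : E →L[ℝ] E →L[ℝ] ℝ := g.inner (σ y)
  G.bilinearComp T T

theorem gσ_apply (g : ContMDiffRiemannianMetric 𝓘(ℝ, E) ∞ E
      (fun x : M => TangentSpace 𝓘(ℝ, E) x)) (σ : E₁ × ℝ → M) (y v w : E₁ × ℝ) :
    gσ g σ y v w = g.inner (σ y) (mfderiv 𝓘(ℝ, E₁ × ℝ) 𝓘(ℝ, E) σ y v)
      (mfderiv 𝓘(ℝ, E₁ × ℝ) 𝓘(ℝ, E) σ y w) := rfl

/-- The logarithm of the length of the vertical coordinate vector. -/
def bet (g : ContMDiffRiemannianMetric 𝓘(ℝ, E) ∞ E (fun x : M => TangentSpace 𝓘(ℝ, E) x))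
    (σ : E₁ × ℝ → M) (y : E₁ × ℝ) : ℝ :=
  (1 / 2) * Real.log (gσ g σ y (0, 1) (0, 1))

/-- The connection: `(u, Γ u)` is orthogonal to `(0, 1)`. -/
def gam (g : ContMDiffRiemannianMetric 𝓘(ℝ, E) ∞ E (fun x : M => TangentSpace 𝓘(ℝ, E) x))
    (σ : E₁ × ℝ → M) (y : E₁ × ℝ) : E₁ →L[ℝ] ℝ :=
  (-(gσ g σ y (0, 1) (0, 1))⁻¹) •
    (gσ g σ y (0, 1)).comp (ContinuousLinearMap.inl ℝ E₁ ℝ)

end Pool.Agent.Lib.MP_df705a_gt.Circ
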