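import Pool.Agent.Lib.MP_df705a_gt.Circ.FibredDefs
import Pool.Agent.Lib.MP_df705a_gt.Circ.SubChart
import Pool.Agent.Lib.MP_df705a_gt.Mg.G061

/-!
# TASK N2a: smoothness of the data in adapted coordinates
-/

open scoped Manifold ContDiff Topology
open Set Bundle Module Filter

noncomputable section

namespace Pool.Agent.Lib.MP_df705a_gt.Circ

open Pool.Agent.Lib.MP_df705a_gt.Twist Pool.Agent.Lib.MP_df705a_gt.Perm

variable {E₁ : Type*} [NormedAddCommGroup E₁] [NormedSpace ℝ E₁] [FiniteDimensional ℝ E₁]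
  {B : Type*} [TopologicalSpace B] [ChartedSpace E₁ B] [IsManifold 𝓘(ℝ, E₁) ∞ B]
  {E : Type*} [NormedAddCommGroup E] [NormedSpace ℝ E] [FiniteDimensional ℝ E]
  {M : Type*} [TopologicalSpace M] [ChartedSpace E M] [IsManifold 𝓘(ℝ, E) ∞ M]

namespace N2a

theorem vec_smooth {σ : E₁ × ℝ → M} {U : Set (E₁ × ℝ)} (hU : IsOpen U)
    (hσ : ContMDiffOn 𝓘(ℝ, E₁ × ℝ) 𝓘(ℝ, E) ∞ σ U) (v : E₁ × ℝ) :
    ContMDiffOn 𝓘(ℝ, E₁ × ℝ) 𝓘(ℝ, E).tangent ∞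
    (fun y : E₁ × ℝ => (TotalSpace.mk' E (σ y)
      (mfderiv 𝓘(ℝ, E₁ × ℝ) 𝓘(ℝ, E) σ y v : TangentSpace 𝓘(ℝ, E) (σ y)) :
      TangentBundle 𝓘(ℝ, E) M)) U := by
  have h2 := hσ.contMDiffOn_tangentMapWithin (m := ∞) (by simp) hU.uniqueMDiffOn
  have h3 : ContMDiff 𝓘(ℝ, E₁ × ℝ) 𝓘(ℝ, E₁ × ℝ).tangent ∞
      (fun y : E₁ × ℝ => (TotalSpace.mk' (E₁ × ℝ) y v : TangentBundle 𝓘(ℝ, E₁ × ℝ) (E₁ × ℝ))) := by
    intro y
    exact contMDiffAt_vectorSpace_iff_contDiffAt.2 contDiffAt_const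
  have h4 := h2.comp h3.contMDiffOn (s := U) (fun y hy => hy)
  refine h4.congr ?_
  intro y hy
  simp only [Function.comp_apply, tangentMapWithin, TotalSpace.mk']
  rw [mfderivWithin_of_isOpen hU hy]

theorem gσ_smooth (g : ContMDiffRiemannianMetric 𝓘(ℝ, E) ∞ E
      (fun x : M => TangentSpace 𝓘(ℝ, E) x)) {σ : E₁ × ℝ → M} {q : E₁ × ℝ}
    (hp : ∀ᶠ y in 𝓝 q, Para E σ y) (v w : E₁ × ℝ) :
    ContDiffAt ℝ ∞ (fun y => gσ g σ y v w) q := by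
  obtain ⟨U, hU, hUo, hq⟩ := eventually_nhds_iff.1 hp
  have hσ : ContMDiffOn 𝓘(ℝ, E₁ × ℝ) 𝓘(ℝ, E) ∞ σ U :=
    fun y hy => (hU y hy).smooth.contMDiffWithinAt
  have main : ContMDiffOn 𝓘(ℝ, E₁ × ℝ) 𝓘(ℝ) ∞ (fun y => gσ g σ y v w) U := by
    intro y hy
    have : ContMDiffWithinAt 𝓘(ℝ, E₁ × ℝ) (𝓘(ℝ, E).prod 𝓘(ℝ)) ∞
        (fun y ↦ TotalSpace.mk' ℝ (E := Bundle.Trivial M ℝ) (σ y)
          (g.inner (σ y) (mfderiv 𝓘(ℝ, E₁ × ℝ) 𝓘(ℝ, E) σ y v)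
            (mfderiv 𝓘(ℝ, E₁ × ℝ) 𝓘(ℝ, E) σ y w))) U y := by
      apply ContMDiffWithinAt.clm_bundle_apply₂ (F₁ := E) (F₂ := E)
      · exact ContMDiffAt.comp_contMDiffWithinAt y g.contMDiff.contMDiffAt (hσ y hy)
      · exact vec_smooth hUo hσ v y hy
      · exact vec_smooth hUo hσ w y hy
    simp only [contMDiffWithinAt_totalSpace] at this
    exact this.2
  exact (contMDiffOn_iff_contDiffOn.1 main).contDiffAt (hUo.mem_nhds hq)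

theorem gσ_pos (g : ContMDiffRiemannianMetric 𝓘(ℝ, E) ∞ E
      (fun x : M => TangentSpace 𝓘(ℝ, E) x)) {σ : E₁ × ℝ → M} {q : E₁ × ℝ}
    (hp : Para E σ q) : 0 < gσ g σ q (0, 1) (0, 1) := by
  rw [gσ_apply]
  refine g.pos _ _ ?_
  intro h0
  have h5 : ((0 : E₁), (1 : ℝ)) = 0 := by
    apply hp.bij.1
    exact h0.trans (ContinuousLinearMap.map_zero (mfderiv 𝓘(ℝ, E₁ × ℝ) 𝓘(ℝ, E) σ q)).symm
  simpa using congrArg Prod.snd h5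

theorem clm_smooth {f : E₁ × ℝ → E₁ →L[ℝ] ℝ} {q : E₁ × ℝ}
    (h : ∀ u, ContDiffAt ℝ ∞ (fun y => f y u) q) : ContDiffAt ℝ ∞ f q := by
  let d := finrank ℝ E₁
  have hd : d = finrank ℝ (Fin d → ℝ) := (finrank_fin_fun ℝ).symm
  let e₁ := ContinuousLinearEquiv.ofFinrankEq hd
  let e₂ := (e₁.arrowCongr (1 : ℝ ≃L[ℝ] ℝ)).trans (ContinuousLinearEquiv.piRing (Fin d))
  rw [← Function.id_comp f, ← e₂.symm_comp_self]
  exact e₂.symm.contDiff.contDiffAt.comp q (contDiffAt_pi.mpr fun i => h _)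

end N2a

theorem CDat_of_AC (g : ContMDiffRiemannianMetric 𝓘(ℝ, E) ∞ E
      (fun x : M => TangentSpace 𝓘(ℝ, E) x))
    (gB : ContMDiffRiemannianMetric 𝓘(ℝ, E₁) ∞ E₁ (fun x : B => TangentSpace 𝓘(ℝ, E₁) x))
    {pr : M → B} {σ : E₁ × ℝ → M} {q : E₁ × ℝ} {z : B} (hA : AC E pr σ q z) :
    CDat (coeff gB z) (gam g σ) (bet g σ) q := by
  have hq : q.1 ∈ (extChartAt 𝓘(ℝ, E₁) z).target := by
    rw [← hA.fst.self_of_nhds]
    exact (extChartAt 𝓘(ℝ, E₁) z).map_source hA.src.self_of_nhds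
  have hpos := N2a.gσ_pos g hA.para.self_of_nhds
  refine ⟨fun i j => g3_coeff_smooth gB z hq i j, ?_, ?_, ?_⟩
  · have h1 : ∀ u : E₁, ContDiffAt ℝ ∞ (fun y => gam g σ y u) q := by
      intro u
      have h2 : (fun y => gam g σ y u) =
          fun y => -(gσ g σ y (0, 1) (0, 1))⁻¹ * gσ g σ y (0, 1) (u, 0) := rfl
      rw [h2]
      exact ((N2a.gσ_smooth g hA.para _ _).inv hpos.ne').neg.mul (N2a.gσ_smooth g hA.para _ _)
    exact N2a.clm_smooth h1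
  · exact contDiffAt_const.mul ((N2a.gσ_smooth g hA.para _ _).log hpos.ne')
  · filter_upwards [(isOpen_extChartAt_target (I := 𝓘(ℝ, E₁)) z).mem_nhds hq] with x hx
    exact chartMetric_posDef 𝓘(ℝ, E₁) (finBasis ℝ E₁) gB z hx

end Pool.Agent.Lib.MP_df705a_gt.Circ
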