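import Pool.Agent.Lib.MP_df705a_gt.Mg.G058
import Pool.Agent.Lib.MP_df705a_gt.Perm.ChartIneq

/-!
# TASK J4: the scalar curvature of `h + (e^β dy)²`
-/

open scoped Manifold ContDiff Topology
open Set Bundle Module Filter

noncomputable section

namespace Pool.Agent.Lib.MP_df705a_gt.Circ

open Pool.Agent.Lib.MP_df705a_gt.Twist Pool.Agent.Lib.MP_df705a_gt.Perm

variable {E₁ : Type*} [NormedAddCommGroup E₁] [NormedSpace ℝ E₁] [FiniteDimensional ℝ E₁]
  {h : Curv.Coeff E₁} {Γ : E₁ × ℝ → E₁ →L[ℝ] ℝ} {β : E₁ × ℝ → ℝ} {q : E₁ × ℝ}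

/-- The flat metric on the line in the basis `finBasis ℝ ℝ`. -/
def j4f : Matrix (Fin (finrank ℝ ℝ)) (Fin (finrank ℝ ℝ)) ℝ :=
  fun i j => finBasis ℝ ℝ i * finBasis ℝ ℝ j

lemma j4_repr (x : ℝ) : ∑ k, (finBasis ℝ ℝ).repr x k * finBasis ℝ ℝ k = x := by
  have := (finBasis ℝ ℝ).sum_repr x
  simpa [smul_eq_mul] using this

lemma j4_posDef : (j4f).PosDef := by
  have hsymm : (j4f).IsHermitian := by
    ext i j
    simp [j4f, mul_comm]
  refine Matrix.PosDef.of_dotProduct_mulVec_pos hsymm ?_
  intro x hx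
  have h1 : star x ⬝ᵥ (j4f.mulVec x) = (∑ k, x k * finBasis ℝ ℝ k) ^ 2 := by
    simp only [dotProduct, Matrix.mulVec, j4f, star_trivial]
    rw [sq, Finset.sum_mul_sum]
    refine Finset.sum_congr rfl fun i _ => ?_
    rw [Finset.mul_sum]
    refine Finset.sum_congr rfl fun j _ => ?_
    ring
  rw [h1]
  have h2 : ∑ k, x k * finBasis ℝ ℝ k ≠ 0 := by
    intro h0
    apply hx
    have h3 : ∑ k, x k • finBasis ℝ ℝ k = 0 := by simpa [smul_eq_mul] using h0
    have := Fintype.linearIndependent_iff.1 (finBasis ℝ ℝ).linearIndependent x h3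
    funext i
    exact this i
  positivity

lemma j4_conn (h : Curv.Coeff E₁) (β : E₁ × ℝ → ℝ) :
    conn h 0 β = blockMetric (fun q => h q.1) (fun _ => j4f) (fun _ => 0) β := by
  funext q i j
  simp only [conn, blockMetric, Sub.mB, Pi.zero_apply, zero_apply, sub_zero,
    Real.exp_zero, one_pow, one_mul]
  congr 2
  have h1 := j4_repr (finBasis ℝ (E₁ × ℝ) i).2
  have h2 := j4_repr (finBasis ℝ (E₁ × ℝ) j).2
  conv_lhs => rw [← h1, ← h2]
  rw [Finset.sum_mul_sum]
  refine Finset.sum_congr rfl fun k _ => Finset.sum_congr rfl fun l _ => ?_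
  simp only [j4f]
  ring

lemma j4_pd_const {E : Type*} [NormedAddCommGroup E] [NormedSpace ℝ E] [FiniteDimensional ℝ E]
    (i : Fin (finrank ℝ E)) (c : ℝ) (x : E) : Curv.pd i (fun _ : E => c) x = 0 := by
  unfold Curv.pd
  simp

lemma j4_chr {E : Type*} [NormedAddCommGroup E] [NormedSpace ℝ E] [FiniteDimensional ℝ E]
    (M : Matrix (Fin (finrank ℝ E)) (Fin (finrank ℝ E)) ℝ) (i j k : Fin (finrank ℝ E)) :
    Curv.christoffel (fun _ : E => M) i j k = fun _ => 0 := by
  funext x
  unfold Curv.christoffel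
  rw [j4_pd_const, j4_pd_const, j4_pd_const]
  simp

lemma j4_scal {E : Type*} [NormedAddCommGroup E] [NormedSpace ℝ E] [FiniteDimensional ℝ E]
    (M : Matrix (Fin (finrank ℝ E)) (Fin (finrank ℝ E)) ℝ) (y : E) :
    Curv.scal (fun _ : E => M) y = 0 := by
  unfold Curv.scal
  refine Finset.sum_eq_zero fun i _ => Finset.sum_eq_zero fun j _ => Finset.sum_eq_zero
    fun k _ => Finset.sum_eq_zero fun l _ => ?_
  have : Curv.riemann (fun _ : E => M) i j k l y = 0 := by
    unfold Curv.riemann
    simp only [j4_chr, j4_pd_const]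
    simp
  rw [this, mul_zero]

lemma j4_lapC_zero {E : Type*} [NormedAddCommGroup E] [NormedSpace ℝ E] [FiniteDimensional ℝ E]
    (h : Curv.Coeff E) (x : E) : lapC h (fun _ => 0) x = 0 := by
  unfold lapC
  refine Finset.sum_eq_zero fun i _ => Finset.sum_eq_zero fun j _ => ?_
  have h1 : ∀ j, Curv.pd j (fun _ : E => (0 : ℝ)) = fun _ => 0 := by
    intro j
    funext y
    exact j4_pd_const j 0 y
  have : Curv.covHess h (fun _ => 0) x i j = 0 := by
    unfold Curv.covHess
    simp only [h1]
    simp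
  rw [this, mul_zero]

lemma j4_gradC_zero {E : Type*} [NormedAddCommGroup E] [NormedSpace ℝ E] [FiniteDimensional ℝ E]
    (h : Curv.Coeff E) (w : E → ℝ) (x : E) : gradC h w (fun _ => 0) x = 0 := by
  unfold gradC
  refine Finset.sum_eq_zero fun i _ => Finset.sum_eq_zero fun j _ => ?_
  rw [j4_pd_const]
  simp

/-- From `point_ineq'` with `α = 0` and the constant metric on `ℝ`. -/
theorem scal_warp_le (hd₁ : 0 < finrank ℝ E₁) (hD : CDat h Γ β q) :
    Curv.scal (conn h 0 β) q ≤ Curv.scal h q.1 -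
      2 * (lapC h (fun x => β (x, q.2)) q.1 +
        gradC h (fun x => β (x, q.2)) (fun x => β (x, q.2)) q.1) := by
  have hfr : finrank ℝ ℝ = 1 := finrank_self ℝ
  have key := point_ineq' (E₂ := ℝ) hd₁ (by rw [hfr]; norm_num) (fun q => h q.1)
    (fun _ => j4f) (fun _ => 0) β (q := q)
    (fun i j => (hD.h_smooth i j).comp q contDiffAt_fst)
    (fun i j => contDiffAt_const) contDiffAt_const hD.β_smooth
    (continuous_fst.continuousAt.eventually hD.h_pos)
    (Filter.Eventually.of_forall fun _ => j4_posDef)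
    (fun x => by simp) (fun x x' => by simp)
    (by
      intro y
      refine Finset.sum_eq_zero fun k _ => Finset.sum_eq_zero fun l _ => ?_
      have h1 : fderiv ℝ (fun q : E₁ × ℝ => h q.1 k l) q (0, y) = 0 := by
        have h2 := (hD.h_smooth k l).differentiableAt (by simp)
        have h3 : fderiv ℝ (fun q : E₁ × ℝ => h q.1 k l) q =
            (fderiv ℝ (fun x => h x k l) q.1).comp (ContinuousLinearMap.fst ℝ E₁ ℝ) := by
          have := fderiv_comp (g := fun x => h x k l) (f := Prod.fst) q h2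
            differentiableAt_fst
          rw [fderiv_fst] at this
          exact this
        rw [h3]
        simp
      rw [h1, mul_zero])
    (by
      intro y y'
      have hev : ∀ k l, ∀ᶠ p in 𝓝 q, fderiv ℝ (fun q : E₁ × ℝ => h q.1 k l) p (0, y) = 0 := by
        intro k l
        have h2 : ∀ᶠ x in 𝓝 q.1, ContDiffAt ℝ 1 (fun x => h x k l) x :=
          ((hD.h_smooth k l).of_le (by exact_mod_cast le_top)).eventually (by simp)
        filter_upwards [continuous_fst.continuousAt.eventually h2] with p hp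
        have h3 := hp.differentiableAt (by simp)
        have h4 : fderiv ℝ (fun q : E₁ × ℝ => h q.1 k l) p =
            (fderiv ℝ (fun x => h x k l) p.1).comp (ContinuousLinearMap.fst ℝ E₁ ℝ) := by
          have := fderiv_comp (g := fun x => h x k l) (f := Prod.fst) p h3
            differentiableAt_fst
          rw [fderiv_fst] at this
          exact this
        rw [h4]
        simp
      have hl : ∀ k l, fderiv ℝ (fun p => fderiv ℝ (fun q : E₁ × ℝ => h q.1 k l) p (0, y)) q = 0 := by
        intro k l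
        have : (fun p => fderiv ℝ (fun q : E₁ × ℝ => h q.1 k l) p (0, y)) =ᶠ[𝓝 q]
            fun _ => (0 : ℝ) := hev k l
        rw [this.fderiv_eq]
        simp
      have hz : ∀ k l, fderiv ℝ (fun q : E₁ × ℝ => h q.1 k l) q (0, y) = 0 := fun k l =>
        (hev k l).self_of_nhds
      rw [Finset.sum_eq_zero, Finset.sum_eq_zero]
      · intro k _
        refine Finset.sum_eq_zero fun l _ => Finset.sum_eq_zero fun r _ =>
          Finset.sum_eq_zero fun s _ => ?_
        rw [hz]
        ring
      · intro k _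
        refine Finset.sum_eq_zero fun l _ => ?_
        rw [hl]
        simp)
    β (fun _ => 0) (by funext p; rw [hfr]; push_cast; ring) (by funext p; rw [hfr]; push_cast; ring)
  rw [← j4_conn] at key
  have e1 := j4_lapC_zero (E := ℝ) (fun _ => j4f) q.2
  have e2 := j4_gradC_zero (E := ℝ) (fun _ => j4f) (fun y => 0 - β (q.1, y)) q.2
  have e3 := j4_gradC_zero (fun x => h x) (fun _ => 0) q.1
  have e4 := j4_scal (E := ℝ) j4f q.2
  simp only [sub_zero, zero_add] at key
  rw [e1, e2, e3, e4] at key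
  rw [hfr] at key
  simp only [Nat.cast_one, sub_self, zero_mul, mul_zero, add_zero] at key
  have hpos := Real.exp_pos (β q)
  have key2 : Real.exp (β q) * (Curv.scal (conn h 0 β) q) ≤
      Real.exp (β q) * (Curv.scal h q.1 -
      2 * (lapC h (fun x => β (x, q.2)) q.1 +
        gradC h (fun x => β (x, q.2)) (fun x => β (x, q.2)) q.1)) := by
    have e : (fun x : E₁ => h x) = h := rfl
    linarith [key]
  exact le_of_mul_le_mul_left key2 hpos

end Pool.Agent.Lib.MP_df705a_gt.Circ
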