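import Pool.Agent.Lib.MP_df705a_gt.Circ.ConnScal
import Pool.Agent.Lib.MP_df705a_gt.Mg.G068
import Pool.Agent.Lib.MP_df705a_gt.Circ.Warp

/-!
# The local inequality in normal form
-/

open scoped Manifold ContDiff Topology
open Set Bundle Module Filter

noncomputable section

namespace Pool.Agent.Lib.MP_df705a_gt.Circ

open Pool.Agent.Lib.MP_df705a_gt.Twist Pool.Agent.Lib.MP_df705a_gt.Perm
open Pool.Agent.Lib.MP_df705a_gt.Sub (mB)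

variable {E₁ : Type*} [NormedAddCommGroup E₁] [NormedSpace ℝ E₁] [FiniteDimensional ℝ E₁]
  {h : Curv.Coeff E₁} {Γ : E₁ × ℝ → E₁ →L[ℝ] ℝ} {β : E₁ × ℝ → ℝ} {q : E₁ × ℝ}
  {κ : Type*} [Fintype κ] {f : κ → E₁ → ℝ} {c : κ → κ → E₁ → ℝ}

theorem loc_ineq (hd₁ : 0 < finrank ℝ E₁) (hD : CDat h Γ β q) (hN : NF Γ q)
    (hf : ∀ k, ContDiffAt ℝ ∞ (f k) q.1) (hc : ∀ k l, ContDiffAt ℝ ∞ (c k l) q.1)
    (hdata : ∀ᶠ y in 𝓝 q.1, ∀ u v, mB (h y) u v =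
      ∑ k, ∑ l, c k l y * (fderiv ℝ (f k) y u * fderiv ℝ (f l) y v)) :
    Curv.scal (conn h Γ β) q ≤ Curv.scal h q.1 +
      2 * ∑ k, ∑ l, (gradC (conn h Γ β) (wkl h Γ β f c k l) (fun p => f l p.1) q +
        wkl h Γ β f c k l q * lapC (conn h Γ β) (fun p => f l p.1) q) := by
  rw [dform_eq hD hN hf hc hdata]
  have h1 := scal_conn_le hD hN
  have h2 := scal_warp_le hd₁ hD
  linarith

end Pool.Agent.Lib.MP_df705a_gt.Circ
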