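import Pool.Agent.Lib.MP_df705a_gt.Circ.CompAC
import Pool.Agent.Lib.MP_df705a_gt.Circ.CompGam
import Pool.Agent.Lib.MP_df705a_gt.Circ.DataB
import Pool.Agent.Lib.MP_df705a_gt.Circ.FibredConn
import Pool.Agent.Lib.MP_df705a_gt.Circ.FibredSm
import Pool.Agent.Lib.MP_df705a_gt.Mg.G013
import Pool.Agent.Lib.MP_df705a_gt.Circ.Loc
import Pool.Agent.Lib.MP_df705a_gt.Mg.G061

/-!
# The scalar curvature of a Riemannian submersion with one-dimensional fibres
-/

open scoped Manifold ContDiff Topology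
open Set Bundle Module Filter

noncomputable section

namespace Pool.Agent.Lib.MP_df705a_gt.Circ

open Pool.Agent.Lib.MP_df705a_gt.Twist Pool.Agent.Lib.MP_df705a_gt.Perm

variable {E₁ : Type*} [NormedAddCommGroup E₁] [NormedSpace ℝ E₁] [FiniteDimensional ℝ E₁]
  {B : Type*} [TopologicalSpace B] [ChartedSpace E₁ B] [IsManifold 𝓘(ℝ, E₁) ∞ B]
  {E : Type*} [NormedAddCommGroup E] [NormedSpace ℝ E] [FiniteDimensional ℝ E]
  {M : Type*} [TopologicalSpace M] [ChartedSpace E M] [IsManifold 𝓘(ℝ, E) ∞ M]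

theorem lapC_congr_metric {E' : Type*} [NormedAddCommGroup E'] [NormedSpace ℝ E']
    [FiniteDimensional ℝ E'] {h h' : Curv.Coeff E'} {u : E' → ℝ} {x : E'} (hh : h =ᶠ[𝓝 x] h') :
    lapC h u x = lapC h' u x := by
  have h1 : ∀ i j k, Curv.christoffel h i j k x = Curv.christoffel h' i j k x :=
    fun i j k => christoffel_congr hh i j k
  unfold lapC Curv.covHess
  simp only [h1, hh.self_of_nhds]

theorem gradC_congr_metric {E' : Type*} [NormedAddCommGroup E'] [NormedSpace ℝ E']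
    [FiniteDimensional ℝ E'] {h h' : Curv.Coeff E'} {u v : E' → ℝ} {x : E'} (hh : h x = h' x) :
    gradC h u v x = gradC h' u v x := by
  unfold gradC
  rw [hh]

/-- The functions `c_kl (Δ f_k - Δ (f_k ∘ pr))` on `M`. -/
def Wkl (g : ContMDiffRiemannianMetric 𝓘(ℝ, E) ∞ E (fun x : M => TangentSpace 𝓘(ℝ, E) x))
    (gB : ContMDiffRiemannianMetric 𝓘(ℝ, E₁) ∞ E₁ (fun x : B => TangentSpace 𝓘(ℝ, E₁) x))
    (pr : M → B) {κ : Type} (f : κ → B → ℝ) (c : κ → κ → B → ℝ) (k l : κ) (p : M) : ℝ :=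
  c k l (pr p) * (Lap gB (f k) (pr p) - Lap g (fun p => f k (pr p)) p)

theorem sm_Wkl (g : ContMDiffRiemannianMetric 𝓘(ℝ, E) ∞ E
      (fun x : M => TangentSpace 𝓘(ℝ, E) x))
    (gB : ContMDiffRiemannianMetric 𝓘(ℝ, E₁) ∞ E₁ (fun x : B => TangentSpace 𝓘(ℝ, E₁) x))
    {pr : M → B} (hpr : Submersion E E₁ pr) {κ : Type} {f : κ → B → ℝ} {c : κ → κ → B → ℝ}
    (hf : ∀ k, Sm E₁ (f k)) (hc : ∀ k l, Sm E₁ (c k l)) (k l : κ) :
    Sm E (Wkl g gB pr f c k l) := by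
  have h1 : Sm E (fun p => c k l (pr p)) := sm_comp_pr hpr.1 (hc k l)
  have h2 : Sm E (fun p => Lap gB (f k) (pr p)) := sm_comp_pr hpr.1 (sm_lap gB (hf k))
  have h3 : Sm E (Lap g (fun p => f k (pr p))) := sm_lap g (sm_comp_pr hpr.1 (hf k))
  exact ContMDiff.mul h1 (ContMDiff.sub h2 h3)

theorem scal_sub (hd : finrank ℝ E = finrank ℝ E₁ + 1) (hd₁ : 0 < finrank ℝ E₁)
    (g : ContMDiffRiemannianMetric 𝓘(ℝ, E) ∞ E (fun x : M => TangentSpace 𝓘(ℝ, E) x))
    (gB : ContMDiffRiemannianMetric 𝓘(ℝ, E₁) ∞ E₁ (fun x : B => TangentSpace 𝓘(ℝ, E₁) x))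
    {pr : M → B} (hpr : Submersion E E₁ pr) (hH : ∀ p, HorAt g gB pr p 1)
    {κ : Type} [Fintype κ] {f : κ → B → ℝ} {c : κ → κ → B → ℝ}
    (hf : ∀ k, Sm E₁ (f k)) (hc : ∀ k l, Sm E₁ (c k l))
    (hdata : ∀ (x : B) (v w : E₁), ∑ k, ∑ l, c k l x * (dfun f k x v * dfun f l x w) =
        gB.inner x v w) (p : M) :
    Scal g p ≤ Scal gB (pr p) + 2 * ∑ k, ∑ l,
      (Grd g (Wkl g gB pr f c k l) (fun p => f l (pr p)) p +
        Wkl g gB pr f c k l p * Lap g (fun p => f l (pr p)) p) := by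
  obtain ⟨σ₀, q, hσq₀, hA₀⟩ := exists_AC hd hpr p
  have hD₀ := CDat_of_AC g gB hA₀
  obtain ⟨τ, hτ, hτq, hτ1, hτ2, hNF₀⟩ := exists_normal hD₀.Γ_smooth
  have hA := hA₀.comp hτ hτq hτ1 hτ2
  set σ : E₁ × ℝ → M := σ₀ ∘ τ with hσ
  have hσq : σ q = p := by
    rw [hσ, Function.comp_apply, hτq, hσq₀]
  have hD := CDat_of_AC g gB hA
  have hge := gam_comp g hA₀ hτ hτq hτ1 hτ2
  have hNF : NF (gam g σ) q := by
    refine ⟨?_, ?_, ?_⟩
    · rw [hge.self_of_nhds]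
      exact hNF₀.zero
    · rw [hge.fderiv_eq]
      exact hNF₀.dy
    · intro u v
      rw [hge.fderiv_eq]
      exact hNF₀.anti u v
  have hcf := cf_eq_conn g gB hpr hH hA
  set z := pr p with hz
  -- the point of the base
  have hq1 : q.1 = extChartAt 𝓘(ℝ, E₁) z z := by
    have h1 := hA.fst.self_of_nhds
    rw [hσq, ← hz] at h1
    exact h1.symm
  have htar : ∀ᶠ y in 𝓝 q, y.1 ∈ (extChartAt 𝓘(ℝ, E₁) z).target := by
    filter_upwards [hA.src, hA.fst] with y h1 h2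
    rw [← h2]
    exact (extChartAt 𝓘(ℝ, E₁) z).map_source h1
  have hsymm : ∀ᶠ y in 𝓝 q, (extChartAt 𝓘(ℝ, E₁) z).symm y.1 = pr (σ y) := by
    filter_upwards [hA.src, hA.fst] with y h1 h2
    rw [← h2]
    exact (extChartAt 𝓘(ℝ, E₁) z).left_inv h1
  have htq : q.1 ∈ (extChartAt 𝓘(ℝ, E₁) z).target := htar.self_of_nhds
  have htnhds : (extChartAt 𝓘(ℝ, E₁) z).target ∈ 𝓝 q.1 :=
    (isOpen_extChartAt_target z).mem_nhds htq
  -- the local inequality
  have hloc := loc_ineq (κ := κ) (h := coeff gB z) (f := fun k => rd E₁ z (f k))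
    (c := fun k l => rd E₁ z (c k l)) hd₁ hD hNF
    (fun k => g3_rd_smooth (hf k) z htq) (fun k l => g3_rd_smooth (hc k l) z htq)
    (by
      filter_upwards [htnhds] with y hy u v
      exact data_chart gB hf hdata z hy u v)
  -- functions pulled back from the base
  have hbase : ∀ u : B → ℝ, (fun y : E₁ × ℝ => rd E₁ z u y.1) =ᶠ[𝓝 q]
      (fun p => u (pr p)) ∘ σ := by
    intro u
    filter_upwards [hsymm] with y hy
    unfold rd
    rw [hy]
    rfl
  have hlap : ∀ u : B → ℝ, Sm E₁ u → ∀ᶠ y in 𝓝 q,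
      lapC (conn (coeff gB z) (gam g σ) (bet g σ)) (fun p => rd E₁ z u p.1) y =
        Lap g (fun p => u (pr p)) (σ y) := by
    intro u hu
    filter_upwards [hcf.eventually_nhds, (hbase u).eventually_nhds, hA.para] with y h1 h2 h3
    rw [← lap_cf g h3 (sm_comp_pr hpr.1 hu), g3_lapC_congr h2]
    exact lapC_congr_metric (h1.mono fun _ h => h.symm)
  have hw : ∀ k l, wkl (coeff gB z) (gam g σ) (bet g σ) (fun k => rd E₁ z (f k))
      (fun k l => rd E₁ z (c k l)) k l =ᶠ[𝓝 q] Wkl g gB pr f c k l ∘ σ := by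
    intro k l
    filter_upwards [hlap (f k) (hf k), hsymm, htar] with y h1 h2 h3
    have h4 : rd E₁ z (c k l) y.1 = c k l (pr (σ y)) := by
      unfold rd
      rw [h2]
    have h5 := lap_chart gB (hf k) z h3
    rw [h2] at h5
    change rd E₁ z (c k l) y.1 * (lapC (coeff gB z) (rd E₁ z (f k)) y.1 -
      lapC (conn (coeff gB z) (gam g σ) (bet g σ)) (fun p => rd E₁ z (f k) p.1) y) =
      c k l (pr (σ y)) * (Lap gB (f k) (pr (σ y)) - Lap g (fun p => f k (pr p)) (σ y))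
    rw [h1, h4, h5]
  have hpq := hA.para.self_of_nhds
  have e1 : Curv.scal (conn (coeff gB z) (gam g σ) (bet g σ)) q = Scal g p := by
    rw [← hσq, ← scal_cf g hpq]
    exact scalC_congr (hcf.mono fun _ h => h.symm)
  have e2 : Curv.scal (coeff gB z) q.1 = Scal gB z := by
    rw [hq1]
    rfl
  have e3 : ∀ k l, gradC (conn (coeff gB z) (gam g σ) (bet g σ))
      (wkl (coeff gB z) (gam g σ) (bet g σ) (fun k => rd E₁ z (f k))
        (fun k l => rd E₁ z (c k l)) k l) (fun p => rd E₁ z (f l) p.1) q =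
      Grd g (Wkl g gB pr f c k l) (fun p => f l (pr p)) p := by
    intro k l
    rw [← hσq, ← grd_cf g hpq (sm_Wkl g gB hpr hf hc k l) (sm_comp_pr hpr.1 (hf l)),
      g3_gradC_congr (hw k l) (hbase (f l))]
    exact gradC_congr_metric hcf.self_of_nhds.symm
  have e4 : ∀ k l, wkl (coeff gB z) (gam g σ) (bet g σ) (fun k => rd E₁ z (f k))
        (fun k l => rd E₁ z (c k l)) k l q = Wkl g gB pr f c k l p := by
    intro k l
    rw [(hw k l).self_of_nhds, Function.comp_apply, hσq]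
  have e5 : ∀ l, lapC (conn (coeff gB z) (gam g σ) (bet g σ)) (fun p => rd E₁ z (f l) p.1) q =
      Lap g (fun p => f l (pr p)) p := by
    intro l
    rw [(hlap (f l) (hf l)).self_of_nhds, hσq]
  rw [e1, e2] at hloc
  simp only [e3, e4, e5] at hloc
  exact hloc

end Pool.Agent.Lib.MP_df705a_gt.Circ
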