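import Pool.Agent.Lib.MP_df705a_gt.Circ.Alpha
import Pool.Agent.Lib.MP_df705a_gt.Mg.G061
import Pool.Agent.Lib.MP_df705a_gt.Circ.ScalSub
import Pool.Agent.Lib.MP_df705a_gt.Perm.Main

/-!
# The theorem
-/

open scoped Manifold ContDiff Topology
open Set Bundle Module Filter

noncomputable section

namespace Pool.Agent.Lib.MP_df705a_gt.Circ

open Pool.Agent.Lib.MP_df705a_gt.Twist Pool.Agent.Lib.MP_df705a_gt.Perm

variable {E₁ : Type*} [NormedAddCommGroup E₁] [NormedSpace ℝ E₁] [FiniteDimensional ℝ E₁]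
  {B : Type*} [TopologicalSpace B] [ChartedSpace E₁ B] [IsManifold 𝓘(ℝ, E₁) ∞ B]
  {E : Type*} [NormedAddCommGroup E] [NormedSpace ℝ E] [FiniteDimensional ℝ E]
  {M : Type*} [TopologicalSpace M] [ChartedSpace E M] [IsManifold 𝓘(ℝ, E) ∞ M]

theorem grd_const_left (g : ContMDiffRiemannianMetric 𝓘(ℝ, E) ∞ E
    (fun x : M => TangentSpace 𝓘(ℝ, E) x)) (c : ℝ) (u : M → ℝ) (x : M) :
    Grd g (fun _ => c) u x = 0 := by
  unfold Grd gradC
  refine Finset.sum_eq_zero fun i _ => Finset.sum_eq_zero fun j _ => ?_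
  have h1 : Curv.pd i (rd E x (fun _ : M => c)) (extChartAt 𝓘(ℝ, E) x x) = 0 := by
    unfold Curv.pd
    have : rd E x (fun _ : M => c) = fun _ => c := rfl
    rw [this, fderiv_fun_const]
    rfl
  rw [h1, zero_mul, mul_zero]

theorem conf_of_horConf [CompactSpace M] [T2Space M] [Nonempty M]
    [CompactSpace B] [T2Space B] [ConnectedSpace B]
    (hd : finrank ℝ E = finrank ℝ E₁ + 1) (hd₁ : 0 < finrank ℝ E₁)
    (g : ContMDiffRiemannianMetric 𝓘(ℝ, E) ∞ E (fun x : M => TangentSpace 𝓘(ℝ, E) x))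
    (gB : ContMDiffRiemannianMetric 𝓘(ℝ, E₁) ∞ E₁ (fun x : B => TangentSpace 𝓘(ℝ, E₁) x))
    {pr : M → B} (hpr : Submersion E E₁ pr) (hH : HorConf g gB pr) (hpos : PosScal g) :
    ConfPSC gB := by
  by_contra hcon
  obtain ⟨α, hα, hHα⟩ := exists_alpha hd₁ g gB hpr hH
  obtain ⟨m₀, hm₀, hm₀S⟩ := exists_scal_lower g hpos
  obtain ⟨C₀, hC₀⟩ := (isCompact_range (grd_cont g hα)).bddAbove
  have hexpc : Continuous fun p => Real.exp (-(2 * α p)) :=
    Real.continuous_exp.comp ((continuous_const.mul hα.continuous).neg)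
  obtain ⟨A₀, hA₀⟩ := (isCompact_range hexpc).bddAbove
  have hC₀' : ∀ p, Grd g α α p ≤ C₀ := fun p => hC₀ ⟨p, rfl⟩
  have hA₀' : ∀ p, Real.exp (-(2 * α p)) ≤ A₀ := fun p => hA₀ ⟨p, rfl⟩
  set m : ℝ := (finrank ℝ E₁ : ℝ) with hm
  have hm1 : 1 ≤ m := by
    rw [hm]
    exact_mod_cast hd₁
  have hmn : (finrank ℝ E : ℝ) = m + 1 := by
    rw [hd]
    push_cast
    rfl
  have hdenA : 0 < 4 * (|A₀| + 1) := by positivity
  have hdenC : 0 < 8 * (m * (|C₀| + 1)) := by positivity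
  obtain ⟨ψ, hψ, hψ2⟩ := exists_almost_nonpos hd₁ gB hcon (ε := m₀ / (4 * (|A₀| + 1)))
    (κ := min (1 / 2) (m₀ / (8 * (m * (|C₀| + 1))))) (by positivity)
    (lt_min (by norm_num) (by positivity))
  set ε : ℝ := m₀ / (4 * (|A₀| + 1)) with hε
  set κ : ℝ := min (1 / 2) (m₀ / (8 * (m * (|C₀| + 1)))) with hκ
  have hε0 : 0 < ε := by positivity
  have hκ0 : 0 < κ := lt_min (by norm_num) (by positivity)
  have hκ1 : κ ≤ 1 / 2 := min_le_left _ _
  have hκ2 : κ * (8 * (m * (|C₀| + 1))) ≤ m₀ := by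
    have := min_le_right (1 / 2 : ℝ) (m₀ / (8 * (m * (|C₀| + 1))))
    rwa [← hκ, le_div_iff₀ hdenC] at this
  have hε2 : ε * (4 * (|A₀| + 1)) = m₀ := by
    rw [hε]
    field_simp
  obtain ⟨gB', hgB'⟩ := exists_conf gB hψ
  have hψpr : Sm E (fun p => ψ (pr p)) := sm_comp_pr hpr.1 hψ
  have hα' : Sm E (fun p => α p - ψ (pr p)) := ContMDiff.sub hα hψpr
  have hnα' : Sm E (fun p => -(α p - ψ (pr p))) := by
    have h1 := sm_smul hα' (-1)
    have h2 : (fun p => -(α p - ψ (pr p))) = fun p => (-1 : ℝ) * (α p - ψ (pr p)) := by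
      funext p
      ring
    rw [h2]
    exact h1
  obtain ⟨gh, hgh⟩ := exists_conf g hnα'
  -- `g = e^{2α'} gh`
  have hg : IsConf (fun p => α p - ψ (pr p)) gh g := by
    intro p u v
    rw [hgh p u v, ← mul_assoc, ← mul_pow, ← Real.exp_add]
    have : α p - ψ (pr p) + -(α p - ψ (pr p)) = 0 := by ring
    rw [this, Real.exp_zero, one_pow, one_mul]
  -- a Riemannian submersion
  have hH1 : ∀ p, HorAt gh gB' pr p 1 := by
    intro p u v hu hv
    have hhor : ∀ u : TangentSpace 𝓘(ℝ, E) p, Horizontal (E₁ := E₁) gh pr p u →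
        Horizontal (E₁ := E₁) g pr p u := by
      intro u hu w hw
      rw [hg p u w, hu w hw, mul_zero]
    rw [hgB' (pr p), hHα p u v (hhor u hu) (hhor v hv), hgh p u v, one_mul, ← mul_assoc]
    congr 1
    rw [← Real.exp_nat_mul, ← Real.exp_nat_mul, ← Real.exp_add]
    congr 1
    push_cast
    ring
  obtain ⟨ι, _, f, c, hf, hc, -, -, hdata, -⟩ := exists_data gB'
  have hsub := fun p => scal_sub hd hd₁ gh gB' hpr hH1 hf hc hdata p
  -- the sum of divergences
  let w : Option (Bool × ι × ι) → M → ℝ := fun o => match o with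
    | none => fun _ => -(2 * m)
    | some i => Wkl gh gB' pr f c i.2.1 i.2.2
  let u : Option (Bool × ι × ι) → M → ℝ := fun o => match o with
    | none => fun p => α p - ψ (pr p)
    | some i => fun p => f i.2.2 (pr p)
  have hw : ∀ i, Sm E (w i) := by
    intro i
    rcases i with _ | i
    · exact sm_const _
    · exact sm_Wkl gh gB' hpr hf hc _ _
  have hu : ∀ i, Sm E (u i) := by
    intro i
    rcases i with _ | i
    · exact hα'
    · exact sm_comp_pr hpr.1 (hf _)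
  obtain ⟨x, hx⟩ := exists_nonpos_sum gh w u hw hu
  have hsum : ∑ i, (Grd gh (w i) (u i) x + w i x * Lap gh (u i) x) =
      2 * ∑ k, ∑ l, (Grd gh (Wkl gh gB' pr f c k l) (fun p => f l (pr p)) x +
        Wkl gh gB' pr f c k l x * Lap gh (fun p => f l (pr p)) x) -
      2 * m * Lap gh (fun p => α p - ψ (pr p)) x := by
    rw [Fintype.sum_option, Fintype.sum_prod_type]
    simp only [w, u]
    rw [grd_const_left, Fintype.sum_bool, Fintype.sum_prod_type]
    ring
  rw [hsum] at hx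
  -- the conclusion
  have h1 := hg.scal hα' x
  rw [hmn] at h1
  have h2 := hsub x
  have h3 := hgB'.scal hψ (pr x)
  have h4 := hψ2 (pr x)
  have h5 := hm₀S x
  have h6 := grd_sub gh gB' hpr (hH1 x) hψ hψ
  rw [hgB'.grd, one_mul] at h6
  have h7 := grd_le gh hψpr hα x
  have h8 := hgh.grd α α x
  have h9 := hC₀' x
  have h10 := hA₀' x
  have h11 : 0 ≤ Grd gh (fun p => α p - ψ (pr p)) (fun p => α p - ψ (pr p)) x :=
    grd_nonneg gh _ x
  rw [← hm] at h3 h4
  -- abbreviations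
  set S := Scal g x
  set T := Scal gh x
  set L := Lap gh (fun p => α p - ψ (pr p)) x
  set G2 := Grd gh (fun p => α p - ψ (pr p)) (fun p => α p - ψ (pr p)) x
  set G := Grd gB ψ ψ (pr x)
  set G1 := Grd gh α α x
  set Gψ := Grd gh (fun p => ψ (pr p)) (fun p => ψ (pr p)) x
  set a := α x - ψ (pr x) with ha
  set D := ∑ k, ∑ l, (Grd gh (Wkl gh gB' pr f c k l) (fun p => f l (pr p)) x +
        Wkl gh gB' pr f c k l x * Lap gh (fun p => f l (pr p)) x)
  have e1 : Real.exp (2 * a) * S = T - 2 * m * L - m * (m - 1) * G2 := by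
    rw [h1, ← mul_assoc, ← Real.exp_add]
    have : 2 * a + -(2 * a) = 0 := by ring
    rw [this, Real.exp_zero]
    ring
  have e2 : Scal gB' (pr x) ≤ Real.exp (-(2 * ψ (pr x))) * ε +
      κ * (m - 1) * (Real.exp (-(2 * ψ (pr x))) * G) := by
    rw [h3]
    have := mul_le_mul_of_nonneg_left h4 (Real.exp_pos (-(2 * ψ (pr x)))).le
    calc _ ≤ _ := this
      _ = _ := by ring
  rw [← h6] at e2
  have e3 : Real.exp (-(2 * ψ (pr x))) = Real.exp (2 * a) * Real.exp (-(2 * α x)) := by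
    rw [← Real.exp_add, ha]
    congr 1
    ring
  have e4 : G1 = Real.exp (2 * a) * Grd g α α x := by
    rw [h8, ha]
    congr 2
    ring
  have hea : 0 < Real.exp (2 * a) := Real.exp_pos _
  have e5 : Real.exp (-(2 * ψ (pr x))) * ε ≤ Real.exp (2 * a) * (m₀ / 4) := by
    rw [e3, mul_assoc]
    apply mul_le_mul_of_nonneg_left _ hea.le
    have hA1 : Real.exp (-(2 * α x)) ≤ |A₀| + 1 := h10.trans ((le_abs_self _).trans (by linarith))
    calc Real.exp (-(2 * α x)) * ε ≤ (|A₀| + 1) * ε := mul_le_mul_of_nonneg_right hA1 hε0.le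
      _ = m₀ / 4 := by linarith
  have e6 : κ * (m - 1) * Gψ ≤ Real.exp (2 * a) * (m₀ / 4) + (m - 1) * G2 := by
    have k1 : κ * (m - 1) * Gψ ≤ κ * (m - 1) * (2 * G1 + 2 * G2) :=
      mul_le_mul_of_nonneg_left h7 (mul_nonneg hκ0.le (by linarith))
    have k2 : κ * (m - 1) * (2 * G2) ≤ (m - 1) * G2 := by
      have : κ * ((m - 1) * (2 * G2)) ≤ (1 / 2) * ((m - 1) * (2 * G2)) :=
        mul_le_mul_of_nonneg_right hκ1 (mul_nonneg (by linarith) (by linarith))
      nlinarith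
    have k3 : κ * (m - 1) * (2 * G1) ≤ Real.exp (2 * a) * (m₀ / 4) := by
      rw [e4]
      have hC1 : Grd g α α x ≤ |C₀| + 1 := h9.trans ((le_abs_self _).trans (by linarith))
      have k4 : κ * (m - 1) * (2 * Grd g α α x) ≤ m₀ / 4 := by
        calc κ * (m - 1) * (2 * Grd g α α x) ≤ κ * (m - 1) * (2 * (|C₀| + 1)) :=
              mul_le_mul_of_nonneg_left (by linarith) (mul_nonneg hκ0.le (by linarith))
          _ ≤ κ * (2 * (m * (|C₀| + 1))) := by
              have : (m - 1) * (2 * (|C₀| + 1)) ≤ 2 * (m * (|C₀| + 1)) := by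
                nlinarith [abs_nonneg C₀]
              calc κ * (m - 1) * (2 * (|C₀| + 1)) = κ * ((m - 1) * (2 * (|C₀| + 1))) := by ring
                _ ≤ _ := mul_le_mul_of_nonneg_left this hκ0.le
          _ ≤ m₀ / 4 := by linarith
      calc κ * (m - 1) * (2 * (Real.exp (2 * a) * Grd g α α x)) =
            Real.exp (2 * a) * (κ * (m - 1) * (2 * Grd g α α x)) := by ring
        _ ≤ _ := mul_le_mul_of_nonneg_left k4 hea.le
    have k5 : κ * (m - 1) * (2 * G1 + 2 * G2) = κ * (m - 1) * (2 * G1) +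
        κ * (m - 1) * (2 * G2) := by ring
    linarith
  have e7 : (m - 1) * G2 ≤ m * (m - 1) * G2 := by
    have : 0 ≤ (m - 1) * G2 := mul_nonneg (by linarith) h11
    nlinarith
  have e8 : Real.exp (2 * a) * m₀ ≤ Real.exp (2 * a) * S :=
    mul_le_mul_of_nonneg_left h5 hea.le
  have e9 : 0 < Real.exp (2 * a) * m₀ := mul_pos hea hm₀
  have e10 : Real.exp (2 * a) * (m₀ / 4) = Real.exp (2 * a) * m₀ / 4 := by ring
  linarith

end Pool.Agent.Lib.MP_df705a_gt.Circ
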