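import Pool.Agent.Lib.MP_df705a_gt.Mg.G054

/-!
# Off-diagonal jets: the structure
-/

noncomputable section

namespace Pool.Agent.Lib.MP_df705a_gt.Circ

open Module Pool.Agent.Lib.MP_df705a_gt.Twist.Alg

variable {V₁ V₂ : Type*} [AddCommGroup V₁] [Module ℝ V₁] [AddCommGroup V₂] [Module ℝ V₂]
  {ι₁ ι₂ : Type*} [Fintype ι₁] [DecidableEq ι₁] [Fintype ι₂] [DecidableEq ι₂]

/-- The 2-jet `(g, D', D2')` differs from the block-diagonal 2-jet `(g, D, D2)` by off-diagonal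
terms: first order `m`, antisymmetric in its two arguments in `V₁`; second order `n` off the
diagonal, and the corresponding quadratic term in `m` in the `V₁ × V₁` block. -/
structure Off (e₁ : Basis ι₁ ℝ V₁) (e₂ : Basis ι₂ ℝ V₂) (H : Bil V₁) (K : Bil V₂)
    (g : Bil (V₁ × V₂)) (D D' : (V₁ × V₂) →ₗ[ℝ] Bil (V₁ × V₂))
    (D2 D2' : (V₁ × V₂) →ₗ[ℝ] (V₁ × V₂) →ₗ[ℝ] Bil (V₁ × V₂))
    (m : V₁ →ₗ[ℝ] V₁ →ₗ[ℝ] V₂ →ₗ[ℝ] ℝ)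
    (n : (V₁ × V₂) →ₗ[ℝ] (V₁ × V₂) →ₗ[ℝ] V₁ →ₗ[ℝ] V₂ →ₗ[ℝ] ℝ) : Prop where
  hH : Nondeg e₁ H
  hK : Nondeg e₂ K
  Hp : (gram e₁ H).PosDef
  Kp : (gram e₂ K).PosDef
  hg : ∀ u v, g u v = H u.1 v.1 + K u.2 v.2
  /-- the reference jets are block-diagonal and symmetric -/
  d12 : ∀ u v w, D u (v, 0) (0, w) = 0
  d21 : ∀ u v w, D u (0, w) (v, 0) = 0
  d2_12 : ∀ u u' v w, D2 u u' (v, 0) (0, w) = 0
  d2_21 : ∀ u u' v w, D2 u u' (0, w) (v, 0) = 0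
  sD : ∀ u v w, D u v w = D u w v
  sD2 : ∀ u u' v w, D2 u u' v w = D2 u u' w v
  s2D2 : ∀ u u' v w, D2 u u' v w = D2 u' u v w
  anti : ∀ x u v, m x u v = -m u x v
  sn : ∀ x x' u v, n x x' u v = n x' x u v
  hD : ∀ x u v, D' x u v = D x u v + m x.1 u.1 v.2 + m x.1 v.1 u.2
  hD2 : ∀ x x' u v, D2' x x' u v = D2 x x' u v + n x x' u.1 v.2 + n x x' v.1 u.2 +
    (cop e₂ K (m x.1 u.1) (m x'.1 v.1) + cop e₂ K (m x'.1 u.1) (m x.1 v.1))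

end Pool.Agent.Lib.MP_df705a_gt.Circ
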